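import Mathlib
import Pool.Agent.P.MP_a9963e_ag.Defs

/-!
The second Milnor K-group of a field.
-/

namespace Pool.Agent.P.MP_a9963e_ag

open scoped TensorProduct

/-- The relations `a ⊗ (1 - a)` and `a ⊗ (-a)` of Milnor K-theory in degree two. -/
def steinberg (L : Type) [Field L] : Submodule ℤ (Additive Lˣ ⊗[ℤ] Additive Lˣ) :=
  Submodule.span ℤ {x | ∃ a b : Lˣ, ((a : L) + b = 1 ∨ (a : L) + b = 0) ∧
    x = Additive.ofMul a ⊗ₜ[ℤ] Additive.ofMul b}

/-- The Milnor K-group `K²(L) = (Lˣ ⊗ Lˣ) / ⟨a ⊗ (1 - a), a ⊗ (-a)⟩`. -/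
def KTwo (L : Type) [Field L] : Type := (Additive Lˣ ⊗[ℤ] Additive Lˣ) ⧸ steinberg L

/-- The quotient group structure. -/
noncomputable instance (L : Type) [Field L] : AddCommGroup (KTwo L) :=
  Submodule.Quotient.addCommGroup (steinberg L)

/-- The symbol `{a, b}`. -/
noncomputable def symb {L : Type} [Field L] (a b : Lˣ) : KTwo L :=
  Submodule.Quotient.mk (Additive.ofMul a ⊗ₜ[ℤ] Additive.ofMul b)

/-- The coordinate ring `F[1 / (t² - a), t / (t² - a)]` of the projective line minus the closed
point `t² = a`, inside the rational function field. -/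
noncomputable def conic (F : Type) [Field F] (a : F) : Subalgebra F (RatFunc F) :=
  Algebra.adjoin F {(RatFunc.X ^ 2 - RatFunc.C a)⁻¹, RatFunc.X / (RatFunc.X ^ 2 - RatFunc.C a)}

section

variable (A L : Type) [CommRing A] [IsDomain A] [Field L] [Algebra A L] [IsFractionRing A L]

/-- The class `∑ {f i, g i}` is unramified on `Spec A`: its tame symbol is trivial at every
prime whose local ring is a discrete valuation ring. -/
def TameAll {m : ℕ} (f g : Fin m → Lˣ) : Prop :=
  ∀ (P : Ideal A) [P.IsPrime] [IsDiscreteValuationRing (locAt A L P)],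
    TameTrivial (locAt A L P) f g

/-- The form `q` is unramified on `Spec A`: its second residue vanishes at every prime whose local
ring is a discrete valuation ring. -/
def ResAll (q : Witt L) : Prop :=
  ∀ (P : Ideal A) [P.IsPrime] [IsDiscreteValuationRing (locAt A L P)],
    ResidueZero (locAt A L P) q

end

end Pool.Agent.P.MP_a9963e_ag
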