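import Mathlib
import Pool.Agent.P.MP_a9963e_ag.Tame
import Pool.Agent.P.MP_a9963e_ag.K2.Defs

namespace Pool.Agent.P.MP_a9963e_ag

open scoped TensorProduct

variable {L : Type} [Field L]

/-- the quotient map -/
noncomputable def kmk (L : Type) [Field L] : (Additive Lˣ ⊗[ℤ] Additive Lˣ) →+ KTwo L :=
  (steinberg L).mkQ.toAddMonoidHom

theorem symb_eq (a b : Lˣ) : symb a b = kmk L (Additive.ofMul a ⊗ₜ[ℤ] Additive.ofMul b) := rfl

theorem symb_mul_left (a a' b : Lˣ) : symb (a * a') b = symb a b + symb a' b := by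
  simp only [symb_eq, ofMul_mul, TensorProduct.add_tmul, map_add]

theorem symb_mul_right (a b b' : Lˣ) : symb a (b * b') = symb a b + symb a b' := by
  simp only [symb_eq, ofMul_mul, TensorProduct.tmul_add, map_add]

theorem symb_rel {a b : Lˣ} (h : (a : L) + b = 1 ∨ (a : L) + b = 0) : symb a b = 0 :=
  (Submodule.Quotient.mk_eq_zero _).2 (Submodule.subset_span ⟨a, b, h, rfl⟩)

theorem ktwo_mem (N : AddSubgroup (KTwo L)) (h : ∀ a b, symb a b ∈ N) (z : KTwo L) : z ∈ N := by
  obtain ⟨x, rfl⟩ : ∃ x, kmk L x = z := Submodule.mkQ_surjective (steinberg L) z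
  induction x using TensorProduct.induction_on with
  | zero => rw [map_zero]; exact zero_mem _
  | tmul a b => exact h a.toMul b.toMul
  | add x y hx hy => rw [map_add]; exact add_mem hx hy

theorem ktwo_lift {M : Type} [AddCommGroup M] (c : Lˣ → Lˣ → M)
    (h1 : ∀ a a' b, c (a * a') b = c a b + c a' b) (h2 : ∀ a b b', c a (b * b') = c a b + c a b')
    (h3 : ∀ a b : Lˣ, ((a : L) + b = 1 ∨ (a : L) + b = 0) → c a b = 0) :
    ∃ T : KTwo L →+ M, ∀ a b, T (symb a b) = c a b := by
  let c1 : Additive Lˣ →+ Additive Lˣ →+ M :=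
    AddMonoidHom.mk' (fun a => AddMonoidHom.mk' (fun b => c a.toMul b.toMul)
      (fun b b' => h2 _ _ _)) (fun a a' => by ext b; exact h1 _ _ _)
  let c2 : Additive Lˣ →ₗ[ℤ] Additive Lˣ →ₗ[ℤ] M :=
    (AddMonoidHom.mk' (fun a => (c1 a).toIntLinearMap) (fun a a' => by
      ext b; simp)).toIntLinearMap
  have hk : steinberg L ≤ LinearMap.ker (TensorProduct.lift c2) := by
    refine Submodule.span_le.2 ?_
    rintro _ ⟨a, b, h, rfl⟩
    exact h3 a b h
  exact ⟨((steinberg L).liftQ (TensorProduct.lift c2) hk).toAddMonoidHom, fun a b => rfl⟩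

open Classical in
/-- the symbol as a total function -/
noncomputable def sy (x y : L) : KTwo L :=
  if h : x ≠ 0 ∧ y ≠ 0 then symb (Units.mk0 x h.1) (Units.mk0 y h.2) else 0

theorem sy_units (a b : Lˣ) : sy (a : L) b = symb a b := by simp [sy]

@[simp] theorem sy_zero_left (y : L) : sy 0 y = 0 := by simp [sy]

@[simp] theorem sy_zero_right (x : L) : sy x 0 = 0 := by simp [sy]

theorem sy_mul_left {x x' : L} (hx : x ≠ 0) (hx' : x' ≠ 0) (y : L) :
    sy (x * x') y = sy x y + sy x' y := by
  by_cases hy : y = 0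
  · simp [hy]
  lift x to Lˣ using IsUnit.mk0 x hx
  lift x' to Lˣ using IsUnit.mk0 x' hx'
  lift y to Lˣ using IsUnit.mk0 y hy
  rw [← Units.val_mul, sy_units, sy_units, sy_units, symb_mul_left]

theorem sy_mul_right (x : L) {y y' : L} (hy : y ≠ 0) (hy' : y' ≠ 0) :
    sy x (y * y') = sy x y + sy x y' := by
  by_cases hx : x = 0
  · simp [hx]
  lift x to Lˣ using IsUnit.mk0 x hx
  lift y' to Lˣ using IsUnit.mk0 y' hy'
  lift y to Lˣ using IsUnit.mk0 y hy
  rw [← Units.val_mul, sy_units, sy_units, sy_units, symb_mul_right]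

theorem sy_rel {x y : L} (h : x + y = 1 ∨ x + y = 0) : sy x y = 0 := by
  by_cases hx : x = 0
  · simp [hx]
  by_cases hy : y = 0
  · simp [hy]
  lift x to Lˣ using IsUnit.mk0 x hx
  lift y to Lˣ using IsUnit.mk0 y hy
  rw [sy_units, symb_rel h]

@[simp] theorem sy_one_left (y : L) : sy 1 y = 0 := by
  have := sy_mul_left (one_ne_zero (α := L)) one_ne_zero y
  rw [mul_one] at this
  exact left_eq_add.1 this

@[simp] theorem sy_one_right (x : L) : sy x 1 = 0 := by
  have := sy_mul_right x (one_ne_zero (α := L)) one_ne_zero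
  rw [mul_one] at this
  exact left_eq_add.1 this

theorem sy_div_left {x x' : L} (hx : x ≠ 0) (hx' : x' ≠ 0) (y : L) :
    sy (x / x') y = sy x y - sy x' y := by
  rw [eq_sub_iff_add_eq, ← sy_mul_left (div_ne_zero hx hx') hx', div_mul_cancel₀ _ hx']

theorem sy_div_right (x : L) {y y' : L} (hy : y ≠ 0) (hy' : y' ≠ 0) :
    sy x (y / y') = sy x y - sy x y' := by
  rw [eq_sub_iff_add_eq, ← sy_mul_right x (div_ne_zero hy hy') hy', div_mul_cancel₀ _ hy']

theorem sy_pow_left {x : L} (hx : x ≠ 0) (y : L) (n : ℕ) : sy (x ^ n) y = n • sy x y := by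
  induction n with
  | zero => simp
  | succ n ih => rw [pow_succ, sy_mul_left (pow_ne_zero n hx) hx, ih, succ_nsmul]

theorem sy_pow_right (x : L) {y : L} (hy : y ≠ 0) (n : ℕ) : sy x (y ^ n) = n • sy x y := by
  induction n with
  | zero => simp
  | succ n ih => rw [pow_succ, sy_mul_right x (pow_ne_zero n hy) hy, ih, succ_nsmul]

theorem sy_anti (x y : L) : sy x y = -sy y x := by
  by_cases hx : x = 0
  · simp [hx]
  by_cases hy : y = 0
  · simp [hy]
  have h1 : sy (x * y) (-x * y) = 0 := sy_rel (Or.inr (by ring))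
  have h2 : sy x (-x) = 0 := sy_rel (Or.inr (by ring))
  have h3 : sy y (-y) = 0 := sy_rel (Or.inr (by ring))
  rw [sy_mul_left hx hy, sy_mul_right x (neg_ne_zero.2 hx) hy, h2,
    show -x * y = x * -y by ring, sy_mul_right y hx (neg_ne_zero.2 hy), h3] at h1
  rw [eq_neg_iff_add_eq_zero]
  simpa using h1

theorem sy_self (x : L) : sy x x = -sy x (-1) := by
  by_cases hx : x = 0
  · simp [hx]
  have h2 : sy x (x * -1) = 0 := sy_rel (Or.inr (by ring))
  rw [sy_mul_right x hx (by simp)] at h2
  exact eq_neg_of_add_eq_zero_left h2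

section Val

variable (V : Valuation L (WithZero (Multiplicative ℤ)))

/-- additive valuation -/
noncomputable def od (f : Lˣ) : ℤ := -WithZero.log (V (f : L))

theorem od_mul (f g : Lˣ) : od V (f * g) = od V f + od V g := by
  simp only [od, Units.val_mul, map_mul]
  rw [WithZero.log_mul (by simp) (by simp), neg_add]

theorem od_eq_zero_iff (f : Lˣ) : od V f = 0 ↔ V f = 1 := by
  have h0 : V f ≠ 0 := by simp
  rw [od, neg_eq_zero]
  constructor
  · intro h
    rw [← WithZero.exp_log h0, h, WithZero.exp_zero]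
  · intro h
    rw [h, WithZero.log_one]

theorem od_of_exp {f : Lˣ} {n : ℤ} (h : V f = WithZero.exp n) : od V f = -n := by
  rw [od, h, WithZero.log_exp]

theorem od_neg (f : Lˣ) : od V (-f) = od V f := by
  simp only [od, Units.val_neg, Valuation.map_neg]

/-- principal units -/
noncomputable def PU : Subgroup Lˣ where
  carrier := {u | V ((u : L) - 1) < 1}
  one_mem' := by simp
  mul_mem' := by
    intro u w hu hw
    have h1 : V (w : L) = 1 := by
      simpa using V.map_one_add_of_lt hw
    have : ((u * w : Lˣ) : L) - 1 = ((u : L) - 1) * w + ((w : L) - 1) := by simp; ring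
    change V _ < 1
    rw [this]
    exact V.map_add_lt (by rw [map_mul, h1, mul_one]; exact hu) hw
  inv_mem' := by
    intro u hu
    have h1 : V (u : L) = 1 := by
      simpa using V.map_one_add_of_lt hu
    have : ((u⁻¹ : Lˣ) : L) - 1 = -((u : L) - 1) * (u : L)⁻¹ := by simp; field_simp
    change V _ < 1
    rw [this, map_mul, map_inv₀, h1, Valuation.map_neg, inv_one, mul_one]
    exact hu

theorem mem_PU {u : Lˣ} : u ∈ PU V ↔ V ((u : L) - 1) < 1 := Iff.rfl

theorem val_of_PU {u : Lˣ} (hu : u ∈ PU V) : V u = 1 := by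
  simpa using V.map_one_add_of_lt hu

/-- the tame symbol of a pair -/
noncomputable def tm (f g : Lˣ) : Lˣ := (-1) ^ (od V f * od V g) * f ^ od V g / g ^ od V f

theorem tm_mul_left (a a' b : Lˣ) : tm V (a * a') b = tm V a b * tm V a' b := by
  simp only [tm, od_mul, add_mul, zpow_add, mul_zpow]
  ext; simp; field_simp

theorem tm_mul_right (a b b' : Lˣ) : tm V a (b * b') = tm V a b * tm V a b' := by
  simp only [tm, od_mul, mul_add, zpow_add, mul_zpow]
  ext; simp; field_simp

theorem tm_neg (a : Lˣ) : tm V a (-a) = 1 := by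
  simp only [tm, od_neg]
  rw [div_eq_one, ← neg_one_mul a, mul_zpow]
  congr 1
  rcases Int.even_or_odd (od V a) with h | h
  · rw [h.neg_one_zpow, (h.mul_right _).neg_one_zpow]
  · rw [h.neg_one_zpow, (h.mul h).neg_one_zpow]

theorem tm_st {a b : Lˣ} (h : (a : L) + b = 1) : tm V a b ∈ PU V := by
  rcases lt_trichotomy (V a) 1 with ha | ha | ha
  · have hb : b ∈ PU V := by
      rw [mem_PU, show (b : L) - 1 = -a by linear_combination h, Valuation.map_neg]; exact ha
    have h0 := (od_eq_zero_iff V b).2 (val_of_PU V hb)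
    simp only [tm, h0, mul_zero, zpow_zero, one_mul, one_div]
    exact inv_mem (zpow_mem hb _)
  · have h0 := (od_eq_zero_iff V a).2 ha
    simp only [tm, h0, zero_mul, zpow_zero, one_mul, div_one]
    by_cases hb : V b = 1
    · rw [(od_eq_zero_iff V b).2 hb, zpow_zero]; exact one_mem _
    · refine zpow_mem ?_ _
      rw [mem_PU, show (a : L) - 1 = -b by linear_combination h, Valuation.map_neg]
      refine lt_of_le_of_ne ?_ hb
      rw [show (b : L) = 1 - a by linear_combination h]
      exact (V.map_sub_le (by simp) ha.le)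
  · have hu : -b / a ∈ PU V := by
      rw [mem_PU, show ((-b / a : Lˣ) : L) - 1 = -(a : L)⁻¹ by
        simp only [Units.val_div_eq_div_val, Units.val_neg]
        field_simp
        linear_combination -h, Valuation.map_neg, map_inv₀]
      exact inv_lt_one_of_one_lt₀ ha
    have e : b = -a * (-b / a) := by ext; simp
    have h0 := (od_eq_zero_iff V _).2 (val_of_PU V hu)
    rw [e, tm_mul_right, tm_neg, one_mul]
    simp only [tm, h0, mul_zero, zpow_zero, one_mul, one_div]
    exact inv_mem (zpow_mem hu _)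

/-- units modulo principal units -/
def TG : Type := Additive (Lˣ ⧸ PU V)

noncomputable instance : AddCommGroup (TG V) :=
  inferInstanceAs (AddCommGroup (Additive (Lˣ ⧸ PU V)))

/-- the class map -/
noncomputable def clh : Additive Lˣ →+ TG V :=
  AddMonoidHom.mk' (fun u => Additive.ofMul (QuotientGroup.mk u.toMul : Lˣ ⧸ PU V)) fun _ _ => rfl

/-- the class of a unit -/
noncomputable def cl (u : Lˣ) : TG V := clh V (Additive.ofMul u)

theorem cl_mul (u w : Lˣ) : cl V (u * w) = cl V u + cl V w := rfl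

theorem cl_zpow (u : Lˣ) (n : ℤ) : cl V (u ^ n) = n • cl V u := by
  rw [cl, ofMul_zpow, map_zsmul, cl]

theorem cl_inv (u : Lˣ) : cl V u⁻¹ = -cl V u := by
  rw [cl, ofMul_inv, map_neg, cl]

theorem cl_div (u w : Lˣ) : cl V (u / w) = cl V u - cl V w := by
  rw [cl, ofMul_div, map_sub, cl, cl]

theorem cl_eq_zero {u : Lˣ} : cl V u = 0 ↔ V ((u : L) - 1) < 1 :=
  QuotientGroup.eq_one_iff (N := PU V) u

theorem cl_one : cl V 1 = 0 := (cl_eq_zero V).2 (by simp)

theorem exists_tame : ∃ T : KTwo L →+ TG V, ∀ a b, T (symb a b) = cl V (tm V a b) := by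
  refine ktwo_lift _ (fun a a' b => ?_) (fun a b b' => ?_) (fun a b h => ?_)
  · rw [tm_mul_left, cl_mul]
  · rw [tm_mul_right, cl_mul]
  · rcases h with h | h
    · exact (cl_eq_zero V).2 (tm_st V h)
    · rw [show b = -a from Units.ext (by simp; linear_combination h), tm_neg, cl_one]

/-- the tame symbol -/
noncomputable def TT : KTwo L →+ TG V := (exists_tame V).choose

theorem TT_symb (a b : Lˣ) : TT V (symb a b) =
    (od V a * od V b) • cl V (-1) + od V b • cl V a - od V a • cl V b := by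
  rw [TT, (exists_tame V).choose_spec a b, tm, cl_div, cl_mul, cl_zpow, cl_zpow, cl_zpow]

theorem TT_units {x y : L} (hx : V x = 1) (hy : V y = 1) : TT V (sy x y) = 0 := by
  have hx0 : x ≠ 0 := by rintro rfl; simp at hx
  have hy0 : y ≠ 0 := by rintro rfl; simp at hy
  lift x to Lˣ using IsUnit.mk0 x hx0
  lift y to Lˣ using IsUnit.mk0 y hy0
  rw [sy_units, TT_symb, (od_eq_zero_iff V x).2 hx, (od_eq_zero_iff V y).2 hy]
  simp

theorem TT_left (x y : Lˣ) (hy : V y = 1) : TT V (symb x y) = -(od V x • cl V y) := by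
  rw [TT_symb, (od_eq_zero_iff V y).2 hy]
  simp

theorem TT_right (x y : Lˣ) (hx : V x = 1) : TT V (symb x y) = od V y • cl V x := by
  rw [TT_symb, (od_eq_zero_iff V x).2 hx]
  simp

theorem TT_sum {m : ℕ} (f g : Fin m → Lˣ) : TT V (∑ i, symb (f i) (g i)) = 0 ↔
    V (((∏ i, tm V (f i) (g i) : Lˣ) : L) - 1) < 1 := by
  have h : ∀ a b, TT V (symb a b) = clh V (Additive.ofMul (tm V a b)) :=
    (exists_tame V).choose_spec
  rw [← cl_eq_zero, cl, ofMul_prod, map_sum, map_sum]
  simp only [h]

end Val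

theorem tameTrivial_iff (O : Type) [CommRing O] [IsDomain O] [IsDiscreteValuationRing O]
    [Algebra O L] [IsFractionRing O L] {m : ℕ} (f g : Fin m → Lˣ) :
    TameTrivial O f g ↔ TT (vv L O) (∑ i, symb (f i) (g i)) = 0 := (TT_sum _ f g).symm

end Pool.Agent.P.MP_a9963e_ag
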