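import Mathlib
import Pool.Agent.P.MP_a9963e_ag.K2.Sym

/-! The Pfister map in degree two and residues of Pfister forms. -/

namespace Pool.Agent.P.MP_a9963e_ag

variable {L : Type} [Field L]

theorem form_neg (a : Lˣ) : form (-a) = -form a := by
  rw [← wf_units, ← wf_units, Units.val_neg, wf_neg]

theorem pf_eq (a : Lˣ) : pf a = 1 - form a := by rw [pf, form_one, form_neg, sub_eq_add_neg]

theorem pf_mem (a : Lˣ) : pf a ∈ fund L := Ideal.subset_span ⟨1, -a, rfl⟩

theorem form_sq (a : Lˣ) : form a * form a = 1 := by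
  rw [← wf_units]; exact wf_mul_self a.ne_zero

theorem pf_mul_sq (a b : Lˣ) : pf (a * (b * b)) = pf a := by
  rw [pf_eq, pf_eq, form_mul, form_mul, form_sq, mul_one]

theorem pf_one : pf (1 : Lˣ) = 0 := by rw [pf_eq, form_one, sub_self]

theorem pf_mul (a b : Lˣ) : pf (a * b) = pf a + pf b - pf a * pf b := by
  simp only [pf_eq, form_mul]; ring

theorem pf_mem2 (a b : Lˣ) : pf a * pf b ∈ fund L ^ 2 := by
  rw [sq]; exact Ideal.mul_mem_mul (pf_mem a) (pf_mem b)

theorem pf_mem3 (a b c : Lˣ) : pf a * pf b * pf c ∈ fund L ^ 3 := by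
  rw [pow_succ]; exact Ideal.mul_mem_mul (pf_mem2 a b) (pf_mem c)

theorem pf_rel {a b : Lˣ} (h : (a : L) + b = 1 ∨ (a : L) + b = 0) : pf a * pf b = 0 := by
  rcases h with h | h
  · have := wf_add (a : L) b
    rw [h, wf_one, mul_one, wf_mul, wf_units, wf_units] at this
    simp only [pf_eq]
    linear_combination -this
  · rw [show b = -a from Units.ext (by simp; linear_combination h), pf_eq, pf_eq, form_neg]
    linear_combination -form_sq a

/-- `W (L) / I ^ 3` as a group -/
abbrev WQ (L : Type) [Field L] : Type := Witt L ⧸ (fund L ^ 3).toAddSubgroup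

/-- the projection to `W (L) / I ^ 3` -/
noncomputable def wq (L : Type) [Field L] : Witt L →+ WQ L := QuotientAddGroup.mk' _

theorem wq_eq_zero {x : Witt L} : wq L x = 0 ↔ x ∈ fund L ^ 3 := QuotientAddGroup.eq_zero_iff _

theorem exists_Pf : ∃ T : KTwo L →+ WQ L, (∀ a b, T (symb a b) = wq L (pf a * pf b)) ∧
    ∀ y, T (2 • y) = 0 := by
  obtain ⟨T, hT⟩ := ktwo_lift (fun a b : Lˣ => wq L (pf a * pf b)) (fun a a' b => by
      rw [pf_mul, sub_mul, add_mul, map_sub, map_add, wq_eq_zero.2 (pf_mem3 a a' b), sub_zero])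
    (fun a b b' => by
      rw [pf_mul, mul_sub, mul_add, map_sub, map_add, ← mul_assoc, wq_eq_zero.2 (pf_mem3 a b b'),
        sub_zero]) (fun a b h => by rw [pf_rel h, map_zero])
  refine ⟨T, hT, fun y => ktwo_mem (T.comp (nsmulAddMonoidHom 2)).ker (fun a b => ?_) y⟩
  change T (2 • symb a b) = 0
  rw [map_nsmul, hT, ← map_nsmul, wq_eq_zero]
  convert pf_mem3 (-1) a b using 1
  rw [pf_eq (-1), form_neg, form_one]
  ring

section DVR

variable (O : Type) [CommRing O] [IsDomain O] [IsDiscreteValuationRing O]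
  [Algebra O L] [IsFractionRing O L]

theorem ResidueZero.add {q q' : Witt L} (h : ResidueZero O q) (h' : ResidueZero O q') :
    ResidueZero O (q + q') := fun π πL h1 h2 d hd => by
  rw [map_add, h π πL h1 h2 d hd, h' π πL h1 h2 d hd, add_zero]

theorem ResidueZero.neg {q : Witt L} (h : ResidueZero O q) : ResidueZero O (-q) :=
  fun π πL h1 h2 d hd => by rw [map_neg, h π πL h1 h2 d hd, neg_zero]

theorem rz_units {f g : Lˣ} (hf : vv L O f = 1) (hg : vv L O g = 1) :
    ResidueZero O (pf f * pf g) := by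
  apply residueZero_of_mem
  have h : ∀ y : Lˣ, vv L O y = 1 →
      form y ∈ AddSubgroup.closure {x | ∃ y : L, vv L O y = 1 ∧ x = wf y} := fun y hy =>
    AddSubgroup.subset_closure ⟨y, hy, (wf_units y).symm⟩
  rw [show pf f * pf g = form 1 - form f - form g + form (f * g) by
    simp only [pf_eq, form_mul, form_one]; ring]
  exact add_mem (sub_mem (sub_mem (h 1 (by simp)) (h f hf)) (h g hg)) (h _ (by simp [hf, hg]))

theorem rz_principal {y : Lˣ} (hy : vv L O ((y : L) - 1) < 1) (q : Witt L) :
    ResidueZero O (pf y * q) := by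
  intro π πL hπ hπL d hd
  have h1 : (y : L) ∈ MonoidHom.mker (vv L O) := val_of_PU (vv L O) hy
  rw [IsDiscreteValuationRing.mker_valuation_eq_isUnitSubmonoid] at h1
  obtain ⟨_, ⟨y0, rfl⟩, hy0⟩ := h1
  have hy1 : algebraMap O L y0 = y := hy0
  have hr : IsLocalRing.residue O y0 = 1 := by
    rw [← sub_eq_zero, ← map_one (IsLocalRing.residue O), ← map_sub,
      IsLocalRing.residue_eq_zero_iff]
    rw [← hy1, ← map_one (algebraMap O L), ← map_sub,
      IsDedekindDomain.HeightOneSpectrum.valuation_lt_one_iff_mem] at hy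
    exact hy
  refine witt_mem_prime hπ.prime (IsFractionRing.injective O L) (fracSurj_algebraMap O L)
    (d.comp (AddMonoidHom.mulLeft (pf y))).ker (fun a ha => ?_) q
  obtain ⟨u, rfl⟩ := (not_dvd_iff_isUnit O hπ a).1 ha
  simp only [AddMonoidHom.mem_ker, AddMonoidHom.comp_apply, AddMonoidHom.coe_mulLeft, pf_eq,
    sub_mul, one_mul, map_sub, ← wf_units y, ← wf_mul]
  obtain ⟨e1, e2⟩ := hd u
  obtain ⟨e3, e4⟩ := hd (y0 * u)
  rw [← wf_units] at e1 e2 e3 e4
  simp only [Units.val_mul, Units.coe_map, MonoidHom.coe_coe, map_mul, hy1, hπL] at e1 e2 e3 e4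
  constructor
  · rw [e1, e3, sub_self]
  · rw [map_mul, e2, mul_left_comm, e4, sub_eq_zero]
    congr 1
    ext
    simp [hr]

end DVR

section Disc

variable (V : Valuation L (WithZero (Multiplicative ℤ)))

/-- units modulo principal units and squares -/
abbrev SQ : Type := TG V ⧸ (nsmulAddMonoidHom 2 : TG V →+ TG V).range

/-- the projection -/
noncomputable def sqm : TG V →+ SQ V := QuotientAddGroup.mk' _

theorem sqm_two (x : SQ V) : (2 : ℤ) • x = 0 := by
  obtain ⟨y, rfl⟩ := QuotientAddGroup.mk'_surjective _ x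
  rw [← map_zsmul]
  exact (QuotientAddGroup.eq_zero_iff _).2 ⟨y, by simp [two_smul]⟩

theorem exists_disc (h2 : (2 : L) ≠ 0) (hi : IsSquare (-1 : L)) : ∃ D : Witt L →+ SQ V,
    (∀ a b, D (pf a * pf b) = sqm V (TT V (symb a b))) ∧ ∀ q ∈ fund L ^ 3, D q = 0 := by
  classical
  let c : Lˣ → SQ V := fun u => sqm V (cl V u)
  have cm : ∀ u w, c (u * w) = c u + c w := fun u w => by simp only [c, cl_mul, map_add]
  have cn : c (-1) = 0 := by
    obtain ⟨i, hi⟩ := hi
    have h0 : i ≠ 0 := by rintro rfl; simp at hi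
    rw [show (-1 : Lˣ) = Units.mk0 i h0 * Units.mk0 i h0 from Units.ext (by simpa using hi), cm,
      ← two_zsmul, sqm_two]
  have ct : ∀ a b, sqm V (TT V (symb a b)) = od V b • c a - od V a • c b := fun a b => by
    rw [TT_symb, map_sub, map_add, map_zsmul, map_zsmul, map_zsmul]
    change _ • c (-1) + _ - _ = _
    rw [cn, smul_zero, zero_add]
  let f : L → SQ V := fun x => if h : x = 0 then 0 else
    od V (Units.mk0 x h) • c (Units.mk0 x h)
  have hf : ∀ x : Lˣ, f x = od V x • c x := fun x => by simp [f]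
  obtain ⟨D, hD⟩ := exists_lift h2 (f := f) (by simp [f]) ⟨fun a b hb => by
      by_cases ha : a = 0
      · simp [ha]
      lift a to Lˣ using IsUnit.mk0 a ha
      lift b to Lˣ using IsUnit.mk0 b hb
      rw [sq, ← Units.val_mul, ← Units.val_mul, hf, hf]
      simp only [od_mul, cm]
      linear_combination (norm := module) od V b • sqm_two V (c a) +
        (od V a + 2 * od V b) • sqm_two V (c b),
    fun a => by
      by_cases ha : a = 0
      · simp [ha, f]
      lift a to Lˣ using IsUnit.mk0 a ha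
      rw [← Units.val_neg, hf, hf, od_neg, ← neg_one_mul a, cm, cn]
      linear_combination (norm := module) od V a • sqm_two V (c a),
    fun a b => by
      by_cases ha : a = 0
      · simp [ha, f]
      by_cases hb : b = 0
      · simp [hb, f]
      lift a to Lˣ using IsUnit.mk0 a ha
      lift b to Lˣ using IsUnit.mk0 b hb
      by_cases hab : (a : L) + b = 0
      · rw [hab, mul_zero, show b = -a from Units.ext (by simp; linear_combination hab), hf, hf,
          od_neg, ← neg_one_mul a, cm, cn]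
        simp only [f, dif_pos]
        linear_combination (norm := module) od V a • sqm_two V (c a)
      obtain ⟨s, hs⟩ : ∃ s : Lˣ, (s : L) = a + b := ⟨Units.mk0 _ hab, rfl⟩
      have h1 := ct (a / s) (b / s)
      rw [symb_rel (Or.inl (by
        simp only [Units.val_div_eq_div_val]
        rw [← add_div, ← hs, div_self s.ne_zero])), map_zero, map_zero] at h1
      obtain ⟨a', rfl⟩ : ∃ a', a = a' * s := ⟨a / s, by simp⟩
      obtain ⟨b', rfl⟩ : ∃ b', b = b' * s := ⟨b / s, by simp⟩
      rw [mul_div_cancel_right, mul_div_cancel_right] at h1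
      rw [← hs, ← Units.val_mul, ← Units.val_mul, hf, hf, hf, hf]
      simp only [od_mul, cm]
      linear_combination (norm := module) h1 - od V s • sqm_two V (c a') -
        (od V a' + od V s) • sqm_two V (c b') -
        (od V a' + od V b' + 4 * od V s) • sqm_two V (c s)⟩
  have hD' : ∀ x : Lˣ, D (form x) = od V x • c x := fun x => by rw [← wf_units, hD, hf]
  refine ⟨D, fun a b => ?_, fun q hq => ?_⟩
  · rw [ct, show pf a * pf b = form 1 - form a - form b + form (a * b) by
      simp only [pf_eq, form_mul, form_one]; ring]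
    simp only [map_add, map_sub, hD', od_mul, cm, (od_eq_zero_iff V 1).2 (by simp)]
    linear_combination (norm := module) od V a • sqm_two V (c b)
  · rw [show fund L ^ 3 = fund L * (fund L * (fund L * ⊤)) by simp [pow_succ, mul_assoc]] at hq
    rw [← one_mul q]
    refine fund_step D _ 1 (fun a b => fund_step D _ _ fun a' b' => fund_step D _ _
      fun a'' b'' z _ => top_step D _ (fun e => ?_) z) q hq
    simp only [one_mul, mul_add, add_mul, map_add, ← form_mul, hD', od_mul, cm]
    generalize od V a = x1, od V b = x2, od V a' = x3, od V b' = x4, od V a'' = x5,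
      od V b'' = x6, od V e = x7
    linear_combination (norm := module)
      (2 * x1 + x3 + x4 + x5 + x6 + 2 * x7) • sqm_two V (c a) +
      (2 * x2 + x3 + x4 + x5 + x6 + 2 * x7) • sqm_two V (c b) +
      (2 * x3 + x1 + x2 + x5 + x6 + 2 * x7) • sqm_two V (c a') +
      (2 * x4 + x1 + x2 + x5 + x6 + 2 * x7) • sqm_two V (c b') +
      (2 * x5 + x1 + x2 + x3 + x4 + 2 * x7) • sqm_two V (c a'') +
      (2 * x6 + x1 + x2 + x3 + x4 + 2 * x7) • sqm_two V (c b'') +
      (2 * (x1 + x2 + x3 + x4 + x5 + x6) + 4 * x7) • sqm_two V (c e)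

end Disc

end Pool.Agent.P.MP_a9963e_ag
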