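import Mathlib
import Pool.Agent.P.MP_a9963e_ag.K2.Sym

/-! Exactness of the Milnor-Tate sequence for `K₂` of a rational function field. -/

namespace Pool.Agent.P.MP_a9963e_ag

open Polynomial

variable {K L : Type} [Field K] [Field L]

/-- symbols of polynomials with allowed factors -/
noncomputable def KA (φ : K[X] →+* L) (A : Set K[X]) : AddSubgroup (KTwo L) :=
  AddSubgroup.closure {q | ∃ f g, Al A f ∧ Al A g ∧ q = sy (φ f) (φ g)}

theorem mem_KA {φ : K[X] →+* L} {A : Set K[X]} {f g : K[X]} (hf : Al A f) (hg : Al A g) :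
    sy (φ f) (φ g) ∈ KA φ A := AddSubgroup.subset_closure ⟨f, g, hf, hg, rfl⟩

theorem KA_mono (φ : K[X] →+* L) {A B : Set K[X]} (h : A ⊆ B) : KA φ A ≤ KA φ B :=
  AddSubgroup.closure_mono (by
    rintro _ ⟨f, g, hf, hg, rfl⟩; exact ⟨f, g, hf.mono h, hg.mono h, rfl⟩)

/-- `V` is the normalized valuation of the prime `r` -/
structure IsVal (φ : K[X] →+* L) (r : K[X]) (V : Valuation L (WithZero (Multiplicative ℤ))) :
    Prop where
  unit : ∀ g, ¬ r ∣ g → V (φ g) = 1
  unif : V (φ r) = WithZero.exp (-1)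

theorem IsVal.dvd {φ : K[X] →+* L} {r g : K[X]} {V : Valuation L (WithZero (Multiplicative ℤ))}
    (h : IsVal φ r V) (hg : V (φ g) < 1) : r ∣ g := by
  by_contra h'
  exact hg.ne (h.unit g h')

theorem IsVal.kill {φ : K[X] →+* L} {r : K[X]} {V : Valuation L (WithZero (Multiplicative ℤ))}
    (h : IsVal φ r V) (hr : Irreducible r) (hm : r.Monic) {A : Set K[X]} (hA : r ∉ A) {z : KTwo L}
    (hz : z ∈ KA φ A) : TT V z = 0 := by
  have : KA φ A ≤ (TT V).ker := by
    rw [KA, AddSubgroup.closure_le]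
    rintro _ ⟨f, g, hf, hg, rfl⟩
    exact TT_units V (h.unit f fun hd => hA (hf.2 r hr hm hd))
      (h.unit g fun hd => hA (hg.2 r hr hm hd))
  exact this hz

theorem pre_step {φ : K[X] →+* L} (hi : Function.Injective φ) {A : Set K[X]} {p : K[X]}
    (hp : Irreducible p) (hm : p.Monic) (hpA : p ∉ A)
    (hA1 : ∀ r, Irreducible r → r.Monic → r.natDegree < p.natDegree → r ∈ A)
    (hA2 : ∀ r ∈ A, r.natDegree ≤ p.natDegree) {z : KTwo L} (hz : z ∈ KA φ (insert p A)) :
    ∃ g : K[X], g ≠ 0 ∧ g.natDegree < p.natDegree ∧ z - sy (φ p) (φ g) ∈ KA φ A := by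
  let mk := QuotientAddGroup.mk' (KA φ A)
  have hmk : ∀ a b, Al A a → Al A b → mk (sy (φ a) (φ b)) = 0 := fun a b ha hb =>
    (QuotientAddGroup.eq_zero_iff _).2 (mem_KA ha hb)
  have hp1 : p ≠ 1 := hp.ne_one
  have hφ0 : ∀ {a : K[X]}, a ≠ 0 → φ a ≠ 0 := fun ha => (map_ne_zero_iff φ hi).2 ha
  have hsmall : ∀ {g : K[X]}, g ≠ 0 → g.natDegree < p.natDegree → Al A g := fun h0 hg =>
    ⟨h0, fun r hr hrm hd => hA1 r hr hrm (lt_of_le_of_lt (natDegree_le_of_dvd hd h0) hg)⟩
  have hmod : ∀ a : K[X], (a %ₘ p).natDegree < p.natDegree := fun a =>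
    natDegree_modByMonic_lt a hm hp1
  let h : K[X] → KTwo L ⧸ KA φ A := fun g => mk (sy (φ p) (φ g))
  have hmul : ∀ {a b : K[X]}, a ≠ 0 → b ≠ 0 → h (a * b) = h a + h b := fun ha hb => by
    simp only [h, map_mul φ, sy_mul_right _ (hφ0 ha) (hφ0 hb), map_add]
  have base : ∀ g g' : K[X], Al A g → g.natDegree ≤ p.natDegree → g' ≠ 0 →
      g'.natDegree < p.natDegree → (g * g') %ₘ p ≠ 0 ∧ h g + h g' = h ((g * g') %ₘ p) := by
    intro g g' hg hgd h0 hh
    have hAh := hsmall h0 hh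
    set k := (g * g') /ₘ p with hk
    set r := (g * g') %ₘ p with hr
    have e : r + p * k = g * g' := modByMonic_add_div _ _
    have hr0 : r ≠ 0 := fun h' => hpA ((hg.mul hAh).2 p hp hm ⟨k, by rw [← e, h', zero_add]⟩)
    refine ⟨hr0, ?_⟩
    rw [← hmul hg.1 h0]
    by_cases hk0 : k = 0
    · rw [← e, hk0]; simp
    have hAk : Al A k := hsmall hk0 (by
      rw [hk, natDegree_divByMonic _ hm, natDegree_mul hg.1 h0]; omega)
    have hAr : Al A r := hsmall hr0 (hmod _)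
    have hG := hg.mul hAh
    have h1 : sy (φ p * φ k / φ (g * g')) (φ r / φ (g * g')) = 0 := sy_rel (Or.inl (by
      rw [← add_div, ← map_mul, ← map_add, add_comm, e, div_self (hφ0 hG.1)]))
    rw [sy_div_left (mul_ne_zero (hφ0 hp.ne_zero) (hφ0 hk0)) (hφ0 hG.1),
      sy_mul_left (hφ0 hp.ne_zero) (hφ0 hk0)] at h1
    simp only [sy_div_right _ (hφ0 hr0) (hφ0 hG.1)] at h1
    have h2 := congrArg mk h1
    simp only [map_sub, map_add, hmk _ _ hAk hAr, hmk _ _ hAk hG, hmk _ _ hG hAr, hmk _ _ hG hG,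
      map_zero, sub_self, add_zero, sub_zero] at h2
    exact (sub_eq_zero.1 h2).symm
  have h1 : h 1 = 0 := by simp [h]
  let N : AddSubgroup (KTwo L ⧸ KA φ A) :=
    { carrier := {y | ∃ g : K[X], g ≠ 0 ∧ g.natDegree < p.natDegree ∧ y = h g}
      zero_mem' := ⟨1, one_ne_zero, by simpa using hp.natDegree_pos, h1.symm⟩
      add_mem' := by
        rintro _ _ ⟨g, hg0, hg, rfl⟩ ⟨g', hg0', hg', rfl⟩
        obtain ⟨h2, h3⟩ := base g g' (hsmall hg0 hg) hg.le hg0' hg'
        exact ⟨_, h2, hmod _, h3⟩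
      neg_mem' := by
        rintro _ ⟨g, hg0, hg, rfl⟩
        obtain ⟨u, v, huv⟩ : IsCoprime p g :=
          (hp.coprime_iff_not_dvd).2 fun hd => absurd (natDegree_le_of_dvd hd hg0) (by omega)
        have h2 : (g * (v %ₘ p)) %ₘ p = 1 := by
          rw [modByMonic_eq_of_dvd_sub hm (p₂ := 1), (modByMonic_eq_self_iff hm).2 (by
            rw [degree_one]; exact degree_pos_of_irreducible hp)]
          obtain ⟨w, hw⟩ := dvd_modByMonic_sub v p
          exact ⟨g * w - u, by linear_combination g * hw + huv⟩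
        have h3 : v %ₘ p ≠ 0 := by
          intro h3
          rw [h3, mul_zero, zero_modByMonic] at h2
          exact zero_ne_one h2
        refine ⟨_, h3, hmod v, ?_⟩
        have := (base g _ (hsmall hg0 hg) hg.le h3 (hmod v)).2
        rw [h2, h1] at this
        exact neg_eq_of_add_eq_zero_right this }
  have red : ∀ g : K[X], Al A g → h g ∈ N := by
    intro g
    induction g using WfDvdMonoid.induction_on_irreducible with
    | zero => intro h; exact absurd rfl h.1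
    | unit u hu =>
      intro hg
      exact ⟨u, hg.1, by rw [natDegree_eq_zero_of_isUnit hu]; exact hp.natDegree_pos, rfl⟩
    | mul a i ha hirr ih =>
      intro hg
      have hi' : Al A i := hg.of_dvd (dvd_mul_right _ _)
      have ha' : Al A a := hg.of_dvd (dvd_mul_left _ _)
      have hid : i.natDegree ≤ p.natDegree := by
        have hl : i.leadingCoeff ≠ 0 := leadingCoeff_ne_zero.2 hirr.ne_zero
        have hu : IsUnit (C (i.leadingCoeff)⁻¹) := isUnit_C.2 (IsUnit.mk0 _ (inv_ne_zero hl))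
        have := hA2 _ (hi'.2 (i * C (i.leadingCoeff)⁻¹) ((irreducible_mul_isUnit hu).2 hirr)
          (monic_mul_leadingCoeff_inv hirr.ne_zero) ((hu.mul_right_dvd).2 dvd_rfl))
        rwa [natDegree_mul_C (inv_ne_zero hl)] at this
      rw [hmul hi'.1 ha]
      refine add_mem ?_ (ih ha')
      obtain ⟨h2, h3⟩ := base i 1 hi' hid one_ne_zero (by simpa using hp.natDegree_pos)
      rw [h1, add_zero] at h3
      exact ⟨_, h2, hmod _, h3⟩
  have hfac : ∀ g, Al (insert p A) g → ∃ (n : ℕ) (a : K[X]), Al A a ∧ g = p ^ n * a := by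
    intro g hg
    obtain ⟨n, a, ha, rfl⟩ := exists_pow_factor hp.prime hg.1
    have := hg.of_dvd (dvd_mul_left a (p ^ n))
    refine ⟨n, a, ⟨this.1, fun r hr hrm hdv => ?_⟩, rfl⟩
    rcases this.2 r hr hrm hdv with h | h
    · exact absurd (h ▸ hdv) ha
    · exact h
  have key : KA φ (insert p A) ≤ N.comap mk := by
    rw [KA, AddSubgroup.closure_le]
    rintro _ ⟨f, g, hf, hg, rfl⟩
    obtain ⟨n, a, ha, rfl⟩ := hfac f hf
    obtain ⟨m, b, hb, rfl⟩ := hfac g hg
    have hp0 := hφ0 hp.ne_zero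
    rw [SetLike.mem_coe, AddSubgroup.mem_comap, map_mul, map_mul, map_pow, map_pow,
      sy_mul_left (pow_ne_zero n hp0) (hφ0 ha.1), sy_pow_left hp0]
    simp only [sy_mul_right _ (pow_ne_zero m hp0) (hφ0 hb.1), sy_pow_right _ hp0]
    rw [sy_self, sy_anti (φ a) (φ p)]
    simp only [map_add, map_nsmul, map_neg, hmk _ _ ha hb, add_zero]
    have h2 := red (-1) (hsmall (by simp) (by simpa using hp.natDegree_pos))
    simp only [h, map_neg, map_one] at h2
    exact add_mem (nsmul_mem (add_mem (nsmul_mem (neg_mem h2) _) (red b hb)) _)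
      (nsmul_mem (neg_mem (red a ha)) _)
  obtain ⟨g, hg0, hg, e⟩ := key hz
  exact ⟨g, hg0, hg, (QuotientAddGroup.eq_zero_iff _).1 (by
    change mk _ = 0
    rw [map_sub, e, sub_self])⟩

theorem k_step {φ : K[X] →+* L} (hi : Function.Injective φ) {A : Set K[X]} {p : K[X]}
    (hp : Irreducible p) (hm : p.Monic) (hpA : p ∉ A)
    (hA1 : ∀ r, Irreducible r → r.Monic → r.natDegree < p.natDegree → r ∈ A)
    (hA2 : ∀ r ∈ A, r.natDegree ≤ p.natDegree) {z : KTwo L} (hz : z ∈ KA φ (insert p A))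
    {V : Valuation L (WithZero (Multiplicative ℤ))} (hV : IsVal φ p V) (hu : TT V z = 0) :
    z ∈ KA φ A := by
  obtain ⟨g, hg0, hg, h⟩ := pre_step hi hp hm hpA hA1 hA2 hz
  have h1 := hV.kill hp hm hpA h
  have hnd : ¬ p ∣ g := fun hd => absurd (natDegree_le_of_dvd hd hg0) (by omega)
  let x : Lˣ := Units.mk0 (φ p) ((map_ne_zero_iff φ hi).2 hp.ne_zero)
  let y : Lˣ := Units.mk0 (φ g) ((map_ne_zero_iff φ hi).2 hg0)
  have h2 : TT V (sy (φ p) (φ g)) = _ := (congrArg (TT V) (sy_units x y)).trans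
    (TT_left V x y (hV.unit g hnd))
  replace h1 : TT V (sy (φ p) (φ g)) = 0 := by
    rw [← sub_sub_cancel z (sy (φ p) (φ g)), map_sub, h1, hu, sub_self]
  rw [h2, od_of_exp V (f := x) hV.unif] at h1
  simp only [neg_neg, one_smul, neg_eq_zero, cl_eq_zero] at h1
  have h3 : p ∣ g - 1 := hV.dvd (by simpa [y] using h1)
  have h4 : g - 1 = 0 := eq_zero_of_dvd_of_natDegree_lt h3
    (lt_of_le_of_lt (natDegree_sub_le _ _) (max_lt hg (by simpa using hp.natDegree_pos)))
  rw [sub_eq_zero.1 h4, map_one, sy_one_right, sub_zero] at h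
  exact h

/-- polynomials of bounded degree -/
def DD (K : Type) [Field K] (d : ℕ) : Set K[X] := {r | r.natDegree ≤ d}

theorem k_desc {φ : K[X] →+* L} (hi : Function.Injective φ) {B : Set K[X]} {d : ℕ}
    (hB : ∀ r ∈ B, r.natDegree ≤ d + 1) {z : KTwo L}
    (hu : ∀ r : K[X], Irreducible r → r.Monic → r ∉ B → r.natDegree = d + 1 →
      ∃ V, IsVal φ r V ∧ TT V z = 0)
    (hz : z ∈ KA φ (B ∪ DD K (d + 1))) : z ∈ KA φ (B ∪ DD K d) := by
  classical
  let I := {T : Finset K[X] // ∀ r ∈ T, Irreducible r ∧ r.Monic ∧ r.natDegree = d + 1}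
  have h3 : ∃ T : I, z ∈ KA φ ((B ∪ DD K d) ∪ T.1) := by
    have _ : Nonempty I := ⟨⟨∅, by simp⟩⟩
    have hdir : Directed (· ≤ ·) fun T : I => KA φ ((B ∪ DD K d) ∪ T.1) := by
      intro T T'
      refine ⟨⟨T.1 ∪ T'.1, fun r hr => ?_⟩, KA_mono φ ?_, KA_mono φ ?_⟩
      · exact (Finset.mem_union.1 hr).elim (T.2 r) (T'.2 r)
      · exact Set.union_subset_union_right _ (by simp)
      · exact Set.union_subset_union_right _ (by simp)
    rw [← AddSubgroup.mem_iSup_of_directed hdir]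
    clear hu
    revert hz
    apply (AddSubgroup.closure_le _).2
    rintro _ ⟨f, g, hf, hg, rfl⟩
    have hfg := hf.mul hg
    let T : I := ⟨(UniqueFactorizationMonoid.normalizedFactors (f * g)).toFinset.filter
      (fun r => Irreducible r ∧ r.Monic ∧ r.natDegree = d + 1),
      fun r hr => (Finset.mem_filter.1 hr).2⟩
    have hT : Al ((B ∪ DD K d) ∪ T.1) (f * g) := by
      refine ⟨hfg.1, fun r hr hrm hd => ?_⟩
      rcases hfg.2 r hr hrm hd with h | h
      · exact Or.inl (Or.inl h)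
      rcases Nat.lt_or_eq_of_le h with h | h
      · exact Or.inl (Or.inr (Nat.le_of_lt_succ h))
      · refine Or.inr (Finset.mem_coe.2 (Finset.mem_filter.2 ⟨?_, hr, hrm, h⟩))
        rw [Multiset.mem_toFinset, Polynomial.mem_normalizedFactors_iff hfg.1]
        exact ⟨hr, hrm, hd⟩
    exact AddSubgroup.mem_iSup_of_mem T
      (mem_KA (hT.of_dvd (dvd_mul_right _ _)) (hT.of_dvd (dvd_mul_left _ _)))
  obtain ⟨⟨T, hT⟩, hq⟩ := h3
  induction T using Finset.induction_on with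
  | empty => simpa using hq
  | insert p T hpT ih =>
    apply ih (fun r hr => hT r (Finset.mem_insert_of_mem hr))
    obtain ⟨hp, hm, hd⟩ := hT p (Finset.mem_insert_self _ _)
    simp only [Finset.coe_insert, Set.union_insert] at hq
    by_cases hX : p ∈ B
    · have hmem : p ∈ (B ∪ DD K d) ∪ (T : Set K[X]) := Or.inl (Or.inl hX)
      rwa [Set.insert_eq_of_mem hmem] at hq
    obtain ⟨V, hV, hz'⟩ := hu p hp hm hX hd
    refine k_step hi hp hm ?_ ?_ ?_ hq hV hz'
    · rintro ((h | h) | h)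
      · exact hX h
      · exact absurd (hd ▸ h : d + 1 ≤ d) (by omega)
      · exact hpT h
    · intro r _ _ h
      exact Or.inl (Or.inr (show r.natDegree ≤ d by omega))
    · rintro r ((h | h) | h)
      · exact hd ▸ hB r h
      · exact le_trans h (by omega)
      · exact (hT r (Finset.mem_insert_of_mem h)).2.2.le.trans hd.ge

theorem k_top {φ : K[X] →+* L} (hφ : FracSurj φ) (z : KTwo L) : ∃ d, z ∈ KA φ (DD K d) := by
  have hdir : Directed (· ≤ ·) fun d => KA φ (DD K d) :=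
    Monotone.directed_le fun a b hab => KA_mono φ fun r hr => le_trans hr hab
  rw [← AddSubgroup.mem_iSup_of_directed hdir]
  have h1 : ∀ f g : K[X], φ f ≠ 0 → φ g ≠ 0 → sy (φ f) (φ g) ∈ ⨆ d, KA φ (DD K d) := by
    intro f g hf hg
    have hf0 : f ≠ 0 := by rintro rfl; simp at hf
    have hg0 : g ≠ 0 := by rintro rfl; simp at hg
    exact AddSubgroup.mem_iSup_of_mem (max f.natDegree g.natDegree) (mem_KA
      ⟨hf0, fun r _ _ hd => le_trans (natDegree_le_of_dvd hd hf0) (le_max_left _ _)⟩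
      ⟨hg0, fun r _ _ hd => le_trans (natDegree_le_of_dvd hd hg0) (le_max_right _ _)⟩)
  refine ktwo_mem _ (fun x y => ?_) z
  obtain ⟨a, b, hb, e⟩ := hφ x
  obtain ⟨c, d, hd, e'⟩ := hφ y
  have ha : φ a ≠ 0 := e ▸ mul_ne_zero x.ne_zero hb
  have hc : φ c ≠ 0 := e' ▸ mul_ne_zero y.ne_zero hd
  rw [← sy_units, eq_div_of_mul_eq hb e, eq_div_of_mul_eq hd e', sy_div_left ha hb,
    sy_div_right _ hc hd, sy_div_right _ hc hd]
  exact sub_mem (sub_mem (h1 _ _ ha hc) (h1 _ _ ha hd)) (sub_mem (h1 _ _ hb hc) (h1 _ _ hb hd))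

theorem KA_zero {φ : K[X] →+* L} (N : AddSubgroup (KTwo L))
    (h : ∀ a b : K, a ≠ 0 → b ≠ 0 → sy (φ (C a)) (φ (C b)) ∈ N) : KA φ (DD K 0) ≤ N := by
  rw [KA, AddSubgroup.closure_le]
  have hu : ∀ f : K[X], Al (DD K 0) f → ∃ c, c ≠ 0 ∧ f = C c := by
    intro f hf
    have hua : IsUnit f := by
      by_contra hna
      obtain ⟨r, hrm, hr, hd⟩ := exists_monic_irreducible_factor f hna
      exact absurd hr.natDegree_pos (not_lt.2 (hf.2 r hr hrm hd))
    obtain ⟨c, hc, rfl⟩ := Polynomial.isUnit_iff.1 hua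
    exact ⟨c, hc.ne_zero, rfl⟩
  rintro _ ⟨f, g, hf, hg, rfl⟩
  obtain ⟨a, ha, rfl⟩ := hu f hf
  obtain ⟨b, hb, rfl⟩ := hu g hg
  exact h a b ha hb

end Pool.Agent.P.MP_a9963e_ag
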