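import Mathlib
import Pool.Agent.P.MP_a9963e_ag.K2.Mil

/-! Classes in `K₂ (K (t))` that are unramified outside `t ^ 2 = a`. -/

namespace Pool.Agent.P.MP_a9963e_ag

open Polynomial

variable {K L : Type} [Field K] [Field L]

section

variable {φ : K[X] →+* L} {r : K[X]} {V : Valuation L (WithZero (Multiplicative ℤ))}

theorem IsVal.lt_one (h : IsVal φ r V) : V (φ r) < 1 := by
  rw [h.unif, ← WithZero.exp_zero, WithZero.exp_lt_exp]; norm_num

theorem IsVal.le_one (h : IsVal φ r V) (hr : Prime r) (g : K[X]) : V (φ g) ≤ 1 := by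
  by_cases hg : g = 0
  · simp [hg]
  obtain ⟨n, a, ha, rfl⟩ := exists_pow_factor hr hg
  rw [map_mul, map_mul, h.unit a ha, mul_one, map_pow, map_pow]
  exact pow_le_one₀ zero_le h.lt_one.le

theorem IsVal.lt_of_dvd (h : IsVal φ r V) (hr : Prime r) {g : K[X]} (hg : r ∣ g) : V (φ g) < 1 := by
  obtain ⟨k, rfl⟩ := hg
  rw [map_mul, map_mul]
  exact mul_lt_one_of_nonneg_of_lt_one_left zero_le h.lt_one (h.le_one hr k)

theorem IsVal.const (h : IsVal φ r V) (hr : Prime r) {c : K} (hc : c ≠ 0) : V (φ (C c)) = 1 :=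
  h.unit _ fun hd => hr.not_isUnit (isUnit_of_dvd_unit hd (isUnit_C.2 (IsUnit.mk0 c hc)))

theorem IsVal.const_eq (h : IsVal φ r V) (hr : Prime r) {c : K} (hc : V (φ (C c) - 1) < 1) :
    c = 1 := by
  by_contra hne
  have := h.const hr (sub_ne_zero.2 hne)
  rw [map_sub, map_sub, map_one, map_one] at this
  exact hc.ne this

theorem cl_congr {x y : Lˣ} (h : V ((x : L) - y) < V y) : cl V x = cl V y ∧ od V x = od V y := by
  have h1 : V (((x / y : Lˣ) : L) - 1) < 1 := by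
    rw [Units.val_div_eq_div_val, div_sub_one y.ne_zero, map_div₀, div_lt_one₀ (by simp [zero_lt_iff])]
    exact h
  constructor
  · rw [← sub_eq_zero, ← cl_div, cl_eq_zero]
    exact h1
  · have h2 := (od_eq_zero_iff V _).2 (val_of_PU V h1)
    rw [← div_mul_cancel x y, od_mul, h2, zero_add]

theorem cl_two : (2 : ℤ) • cl V (-1) = 0 := by
  rw [← cl_zpow]
  simpa using cl_one V

end

/-- the quadratic polynomial -/
noncomputable def pp (a : K) : K[X] := X ^ 2 - C a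

/-- a linear polynomial -/
noncomputable def gg (w0 w1 : K) : K[X] := C w1 * X + C w0

theorem pp_monic (a : K) : (pp a).Monic := monic_X_pow_sub_C a two_ne_zero

theorem pp_deg (a : K) : (pp a).natDegree = 2 := natDegree_X_pow_sub_C

theorem pp_irr {a : K} (ha : ¬ IsSquare a) : Irreducible (pp a) :=
  X_pow_sub_C_irreducible_of_prime Nat.prime_two fun b hb => ha ⟨b, by rw [← hb, sq]⟩

theorem pp_dvd {a x y : K} (h : pp a ∣ gg x y) : x = 0 ∧ y = 0 := by
  have h1 : gg x y = 0 := eq_zero_of_dvd_of_natDegree_lt h (by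
    rw [pp_deg]; exact lt_of_le_of_lt natDegree_linear_le (by norm_num))
  have h2 := congrArg (coeff · 0) h1
  have h3 := congrArg (coeff · 1) h1
  simp [gg] at h2 h3
  exact ⟨h2, h3⟩

theorem structure_thm {φ φ' : K[X] →+* L} (hi : Function.Injective φ) (hφ : FracSurj φ)
    (hC : ∀ c, φ' (C c) = φ (C c)) (hX : φ X * φ' X = 1) {a : K} (ha : ¬ IsSquare a) {z : KTwo L}
    (hfin : ∀ r : K[X], Irreducible r → r.Monic → r ≠ pp a → ∃ V, IsVal φ r V ∧ TT V z = 0)
    {W : Valuation L (WithZero (Multiplicative ℤ))} (hW : IsVal φ' X W) (hinf : TT W z = 0) :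
    ∃ w0 w1 : K, w0 ^ 2 - a * w1 ^ 2 = 1 ∧ ∃ y, (∀ V, IsVal φ (pp a) V → TT V y = 0) ∧
      z - sy (φ (pp a)) (φ (gg w0 w1)) - 2 • y ∈ KA φ (DD K 0) := by
  have hp := pp_irr ha
  have hφ0 : ∀ {f : K[X]}, f ≠ 0 → φ f ≠ 0 := fun ha => (map_ne_zero_iff φ hi).2 ha
  have h1 : z ∈ KA φ ({pp a} ∪ DD K 1) := by
    obtain ⟨d, hd⟩ := k_top hφ z
    replace hd : z ∈ KA φ ({pp a} ∪ DD K (d + 1)) :=
      KA_mono φ (fun r hr => Or.inr (le_trans hr (Nat.le_succ d))) hd
    induction d with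
    | zero => exact hd
    | succ d ih =>
      refine ih (k_desc hi ?_ (fun r hr hm hB _ => hfin r hr hm hB) hd)
      rintro r rfl
      rw [pp_deg]; omega
  obtain ⟨g, hg0, hg, h2⟩ := pre_step hi hp (pp_monic a) (A := DD K 1)
    (fun h => absurd (pp_deg a ▸ h : 2 ≤ 1) (by norm_num))
    (fun r _ _ h => Nat.le_of_lt_succ (h.trans_eq (pp_deg a)))
    (fun r h => le_trans h (by rw [pp_deg]; norm_num)) h1
  obtain ⟨w1, w0, rfl⟩ : ∃ w1 w0, g = gg w0 w1 :=
    exists_eq_X_add_C_of_natDegree_le_one (Nat.le_of_lt_succ (hg.trans_eq (pp_deg a)))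
  have hunit : ∀ r : K[X], Irreducible r → r.natDegree = 0 + 1 → ¬ r ∣ pp a := fun r hr hd h => by
    have := natDegree_eq_of_degree_eq (degree_eq_degree_of_associated (hr.associated_of_dvd hp h))
    rw [pp_deg] at this
    omega
  have hne : ∀ r : K[X], r.natDegree = 0 + 1 → r ≠ pp a := fun r hd h => by
    rw [h, pp_deg] at hd
    omega
  have desc : ∀ {z' : KTwo L}, z' ∈ KA φ (DD K 1) → (∀ r : K[X], Irreducible r → r.Monic →
      r.natDegree = 0 + 1 → ∃ V, IsVal φ r V ∧ TT V z' = 0) → z' ∈ KA φ (DD K 0) := by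
    intro z' h3 h4
    simpa using k_desc hi (B := ∅) (d := 0) (by simp) (fun r hr hm _ hd => h4 r hr hm hd)
      (by simpa using h3)
  have hWc : ∀ {c : K}, c ≠ 0 → W (φ (C c)) = 1 := fun hc => hC _ ▸ hW.const prime_X hc
  have hW0 : ∀ {z' : KTwo L}, z' ∈ KA φ (DD K 0) → TT W z' = 0 := fun h =>
    KA_zero (TT W).ker (fun a b ha hb => TT_units W (hWc ha) (hWc hb)) h
  let T : Lˣ := Units.mk0 (φ X) (hφ0 X_ne_zero)
  let P : Lˣ := Units.mk0 (φ (pp a)) (hφ0 hp.ne_zero)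
  let G : Lˣ := Units.mk0 (φ (gg w0 w1)) (hφ0 hg0)
  have hT : W (φ X) = WithZero.exp 1 := by
    have := congrArg W hX
    rw [map_mul, hW.unif, map_one, WithZero.exp_neg] at this
    exact (mul_inv_eq_one₀ (by simp)).1 this
  have hT1 : 1 < W (φ X) := by rw [hT, ← WithZero.exp_zero, WithZero.exp_lt_exp]; norm_num
  have hWle : ∀ c : K, W (φ (C c)) ≤ 1 := fun c => hC _ ▸ hW.le_one prime_X _
  have oT : od W T = -1 := od_of_exp W hT
  obtain ⟨cP, oP⟩ : cl W P = cl W (T * T) ∧ od W P = od W (T * T) := cl_congr (by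
    simp only [P, T, Units.val_mk0, Units.val_mul, pp, map_sub, map_pow, map_mul]
    rw [show φ X ^ 2 - φ (C a) - φ X * φ X = -φ (C a) by ring, Valuation.map_neg]
    exact lt_of_le_of_lt (hWle a) (one_lt_mul'' hT1 hT1))
  rw [od_mul, oT] at oP
  by_cases hw : w1 = 0
  · have hw0 : w0 ≠ 0 := by
      rintro rfl
      simp [gg, hw] at hg0
    have eg : gg w0 w1 = C w0 := by simp [gg, hw]
    have h3 := desc h2 fun r hr hm hd => by
      obtain ⟨V, hV, hz⟩ := hfin r hr hm (hne r hd)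
      refine ⟨V, hV, ?_⟩
      rw [map_sub, hz, TT_units V (hV.unit _ (hunit r hr hd)) (eg ▸ hV.const hr.prime hw0),
        sub_self]
    refine ⟨w0, w1, ?_, 0, fun V _ => map_zero _, by simpa using h3⟩
    have h4 := hW0 h3
    rw [map_sub, hinf, show sy (φ (pp a)) (φ (gg w0 w1)) = symb P G from sy_units P G,
      TT_left W P G (eg ▸ hWc hw0 :), oP, zero_sub, neg_neg, ← neg_neg (_ • _), neg_eq_zero,
      ← neg_smul, ← cl_zpow, cl_eq_zero] at h4
    rw [hw]
    have h5 := hW.const_eq prime_X (c := w0 ^ 2) (by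
      rw [hC]
      simpa [G, eg, sq] using h4)
    rw [h5]; ring
  set c := (w0 / w1) ^ 2 - a with hc
  have hc0 : c ≠ 0 := fun h => ha ⟨w0 / w1, by rw [← sq]; exact (sub_eq_zero.1 h).symm⟩
  let Cc : Lˣ := Units.mk0 (φ (C c)) (hφ0 (C_ne_zero.2 hc0))
  let W1 : Lˣ := Units.mk0 (φ (C w1)) (hφ0 (C_ne_zero.2 hw))
  have hAg : Al (DD K 1) (gg w0 w1) :=
    ⟨hg0, fun r _ _ hd => le_trans (natDegree_le_of_dvd hd hg0) natDegree_linear_le⟩
  have hAc : Al (DD K 1) (C c) := ⟨C_ne_zero.2 hc0, fun r _ _ hd =>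
    le_trans (natDegree_le_of_dvd hd (C_ne_zero.2 hc0)) (by simp)⟩
  have h3 := desc (sub_mem h2 (mem_KA hAg hAc)) fun r hr hm hd => by
    obtain ⟨V, hV, hz⟩ := hfin r hr hm (hne r hd)
    refine ⟨V, hV, ?_⟩
    rw [map_sub, map_sub, hz]
    have hVp := hV.unit _ (hunit r hr hd)
    have hVc := hV.const hr.prime hc0
    by_cases hdv : r ∣ gg w0 w1
    · rw [show sy (φ (pp a)) (φ (gg w0 w1)) = symb P G from sy_units P G,
        show sy (φ (gg w0 w1)) (φ (C c)) = symb G Cc from sy_units G Cc, TT_right V P G hVp,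
        TT_left V G Cc hVc, (cl_congr (x := P) (y := Cc) (by
          rw [show V (Cc : L) = 1 from hVc]
          simp only [P, Cc, Units.val_mk0, ← map_sub φ]
          refine hV.lt_of_dvd hr.prime (hdv.trans ⟨C (w1⁻¹ ^ 2) * (C w1 * X - C w0), ?_⟩)
          have e1 : C w1 * C w1⁻¹ = 1 := by rw [← C_mul, mul_inv_cancel₀ hw, C_1]
          simp only [pp, gg, hc, div_eq_mul_inv, map_sub, map_pow, map_mul]
          linear_combination (-X ^ 2 * (C w1 * C w1⁻¹ + 1)) * e1)).1]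
      simp
    · rw [TT_units V hVp (hV.unit _ hdv), TT_units V (hV.unit _ hdv) hVc]
      simp
  obtain ⟨cG, oG⟩ : cl W G = cl W (W1 * T) ∧ od W G = od W (W1 * T) := cl_congr (by
    simp only [G, W1, T, Units.val_mk0, Units.val_mul, gg, map_add, map_mul, add_sub_cancel_left,
      hWc hw, one_mul]
    exact lt_of_le_of_lt (hWle w0) hT1)
  rw [od_mul, oT, (od_eq_zero_iff W W1).2 (hWc hw)] at oG
  have h4 := hW0 h3
  rw [map_sub, map_sub, hinf, show sy (φ (pp a)) (φ (gg w0 w1)) = symb P G from sy_units P G,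
    show sy (φ (gg w0 w1)) (φ (C c)) = symb G Cc from sy_units G Cc, TT_left W G Cc (hWc hc0),
    TT_symb, oP, oG, cP, cG, cl_mul, cl_mul] at h4
  have h5 : cl W (W1 * W1 * Cc) = 0 := by
    rw [cl_mul, cl_mul]
    linear_combination (norm := module) -h4 - cl_two (V := W)
  have h6 := hW.const_eq prime_X (c := w1 * w1 * c) (by
    rw [hC]
    simpa [W1, Cc] using (cl_eq_zero W).1 h5)
  refine ⟨w0, w1, ?_, -sy (φ (gg w0 w1)) (φ (C w1)), fun V hV => ?_, ?_⟩
  · rw [← h6, hc]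
    field_simp
  · rw [map_neg, TT_units V (hV.unit _ fun h => hw (pp_dvd h).2) (hV.const hp.prime hw), neg_zero]
  · have h7 : sy (φ (gg w0 w1)) (φ (C w1 * C w1 * C c)) = 0 := by
      rw [← C_mul, ← C_mul, h6, C_1, map_one, sy_one_right]
    have n1 : φ (C w1) ≠ 0 := W1.ne_zero
    have n2 : φ (C c) ≠ 0 := Cc.ne_zero
    rw [map_mul, map_mul, sy_mul_right _ (mul_ne_zero n1 n1) n2, sy_mul_right _ n1 n1] at h7
    convert h3 using 2
    rw [two_smul, ← neg_add]
    exact neg_eq_of_add_eq_zero_right h7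

end Pool.Agent.P.MP_a9963e_ag
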