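import Mathlib
import Pool.Agent.P.MP_a9963e_ag.K2.Str
import Pool.Agent.P.MP_a9963e_ag.K2.Pf

/-! The affine conic `P¹ - {t ^ 2 = a}`. -/

namespace Pool.Agent.P.MP_a9963e_ag

open Polynomial IsDedekindDomain

variable {F L : Type} [Field F] [Field L] [Algebra F L]

/-- evaluation at a coordinate -/
noncomputable def e1 (F : Type) [Field F] [Algebra F L] (t : L) : F[X] →+* L :=
  (aeval t : F[X] →ₐ[F] L).toRingHom

theorem e1_apply (t : L) (f : F[X]) : e1 F t f = aeval t f := rfl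

@[simp] theorem e1_X (t : L) : e1 F t X = t := by simp [e1_apply]

@[simp] theorem e1_C (t : L) (c : F) : e1 F t (C c) = algebraMap F L c := by simp [e1_apply]

/-- `t` is a coordinate of `L` -/
structure Co1 (F : Type) [Field F] [Algebra F L] (t : L) : Prop where
  inj : Function.Injective (e1 F t)
  surj : FracSurj (e1 F t)

theorem Co1.ne {t : L} (h : Co1 F t) {f : F[X]} (hf : f ≠ 0) : e1 F t f ≠ 0 :=
  (map_ne_zero_iff _ h.inj).2 hf

theorem Co1.inv {t : L} (h : Co1 F t) : Co1 F t⁻¹ := by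
  constructor
  · have h1 : Transcendental F t := transcendental_iff_injective.2 h.inj
    exact transcendental_iff_injective.1 fun h2 => h1 (IsAlgebraic.inv_iff.1 h2)
  · intro z
    have ht : t ∈ IntermediateField.adjoin F {t⁻¹} := by
      simpa using inv_mem (IntermediateField.mem_adjoin_simple_self F t⁻¹)
    have hm : ∀ f : F[X], e1 F t f ∈ IntermediateField.adjoin F {t⁻¹} := fun f => by
      induction f using Polynomial.induction_on with
      | C c => rw [e1_C]; exact IntermediateField.algebraMap_mem _ c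
      | add p q hp hq => rw [map_add]; exact add_mem hp hq
      | monomial n c hp => rw [pow_succ, ← mul_assoc, map_mul, e1_X]; exact mul_mem hp ht
    obtain ⟨a, b, hb, e⟩ := h.surj z
    have : z ∈ IntermediateField.adjoin F {t⁻¹} := by
      rw [eq_div_of_mul_eq hb e]; exact div_mem (hm a) (hm b)
    obtain ⟨r, s, rfl⟩ := (IntermediateField.mem_adjoin_simple_iff _ _).1 this
    by_cases hs : aeval t⁻¹ s = 0
    · exact ⟨0, 1, by simp, by simp [hs]⟩
    · exact ⟨r, s, hs, div_mul_cancel₀ _ hs⟩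

theorem Co1.smooth {t : L} (h : Co1 F t) {g : L} (hg : g ∈ (aeval t : F[X] →ₐ[F] L).range)
    (h0 : g ≠ 0) : Algebra.Smooth F (loc _ g hg) := by
  have h1 : Algebra.Smooth F F[X] := {}
  have h2 : Algebra.Smooth F (aeval t : F[X] →ₐ[F] L).range :=
    .of_equiv (AlgEquiv.ofInjective _ h.inj)
  let _ := (Subalgebra.inclusion (le_loc hg)).toRingHom.toAlgebra
  have := isAway (le_loc hg) hg h0 (inv_mem_loc hg) le_rfl
  have h3 := Algebra.Smooth.of_isLocalization_Away (A := loc _ g hg)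
    (⟨g, hg⟩ : (aeval t : F[X] →ₐ[F] L).range)
  have : IsScalarTower F (aeval t : F[X] →ₐ[F] L).range (loc _ g hg) :=
    .of_algebraMap_eq fun _ => rfl
  exact .comp F (aeval t : F[X] →ₐ[F] L).range _

theorem range_le1 {t : L} {B : Subalgebra F L} (h : t ∈ B) :
    (aeval t : F[X] →ₐ[F] L).range ≤ B := by
  rw [← Algebra.adjoin_singleton_eq_range_aeval, Algebra.adjoin_le_iff]
  simpa using h

theorem isVal_of {φ : F[X] →+* L} (hi : Function.Injective φ) (hs : FracSurj φ) {r : F[X]}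
    (hr : Prime r) {V : Valuation L (WithZero (Multiplicative ℤ))}
    (h1 : ∀ g, ¬ r ∣ g → V (φ g) = 1) (h2 : V (φ r) < 1) (h3 : ∃ x, V x = WithZero.exp (-1)) :
    IsVal φ r V := by
  refine ⟨h1, ?_⟩
  obtain ⟨x, hx⟩ := h3
  obtain ⟨f, g, hg, e⟩ := hs x
  have hx0 : x ≠ 0 := by rintro rfl; rw [map_zero] at hx; exact WithZero.exp_ne_zero hx.symm
  have hg0 : g ≠ 0 := by rintro rfl; simp at hg
  have hf0 : f ≠ 0 := by
    rintro rfl
    exact mul_ne_zero hx0 hg (by simpa using e)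
  obtain ⟨n, a, ha, rfl⟩ := exists_pow_factor hr hf0
  obtain ⟨m, b, hb, rfl⟩ := exists_pow_factor hr hg0
  have h0 : V (φ r) ≠ 0 := by simpa using (map_ne_zero_iff φ hi).2 hr.ne_zero
  have e2 := congrArg V e
  simp only [map_mul, map_pow, h1 a ha, h1 b hb, mul_one, hx] at e2
  rw [← WithZero.exp_log h0] at e2 h2 ⊢
  generalize WithZero.log (V (φ r)) = k at e2 h2 ⊢
  rw [← WithZero.exp_zero, WithZero.exp_lt_exp] at h2
  rw [← WithZero.exp_nsmul, ← WithZero.exp_nsmul, ← WithZero.exp_add, WithZero.exp_inj,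
    nsmul_eq_mul, nsmul_eq_mul] at e2
  rw [WithZero.exp_inj]
  have h4 : k ∣ 1 := ⟨m - n, by linear_combination -e2⟩
  rcases Int.isUnit_iff.1 (isUnit_of_dvd_one h4) with h | h <;> omega

theorem val_transfer {A : Type} [CommRing A] [IsDomain A] [Algebra A L] [IsFractionRing A L]
    (h2 : (2 : F) ≠ 0) {φ : F[X] →+* L} (hi : Function.Injective φ) (hs : FracSurj φ) {π : F[X]}
    (hπ : Prime π) (h1 : ∀ x : A, ∃ f g, ¬ π ∣ g ∧ algebraMap A L x * φ g = φ f)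
    (h3 : ∀ f : F[X], ∃ (x y : A) (f' g' : F[X]), ¬ π ∣ f' ∧ ¬ π ∣ g' ∧
      algebraMap A L y * φ g' = φ f' ∧ φ f * algebraMap A L y = algebraMap A L x) :
    ∃ (P : Ideal A) (_ : P.IsPrime) (_ : IsDiscreteValuationRing (locAt A L P)),
      IsVal φ π (vv L (locAt A L P)) := by
  obtain ⟨P, hP, hd, -, h4, h5⟩ := prime_transfer (A := A) (L := L)
    (by simpa only [map_ofNat] using (IsUnit.mk0 _ h2).map (C : F →+* F[X])) hi hπ h1 h3
  exact ⟨P, hP, hd, isVal_of hi hs hπ h4 h5 (HeightOneSpectrum.valuation_exists_uniformizer _ _)⟩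

theorem exists_isVal (h2 : (2 : F) ≠ 0) {φ : F[X] →+* L} (hi : Function.Injective φ)
    (hs : FracSurj φ) {π : F[X]} (hπ : Prime π) : ∃ V, IsVal φ π V := by
  let _ := φ.toAlgebra
  have : IsFractionRing F[X] L := isFractionRing_of_fracSurj hi hs
  obtain ⟨P, _, _, h⟩ := val_transfer (A := F[X]) h2 hi hs hπ
    (fun x => ⟨x, 1, hπ.not_dvd_one, by rw [map_one, mul_one]; rfl⟩)
    (fun f => ⟨f, 1, 1, 1, hπ.not_dvd_one, hπ.not_dvd_one, by simp, by rw [map_one, mul_one]; rfl⟩)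
  exact ⟨_, h⟩

/-- the coordinate ring of the conic -/
noncomputable def Cn (F : Type) [Field F] [Algebra F L] (a : F) (t : L) : Subalgebra F L :=
  Algebra.adjoin F {(t ^ 2 - algebraMap F L a)⁻¹, t / (t ^ 2 - algebraMap F L a)}

/-- the equation of the removed point in the second chart -/
noncomputable def qq (a : F) : F[X] := 1 - C a * X ^ 2

theorem not_X_dvd_qq (a : F) : ¬ X ∣ qq a := by simp [X_dvd_iff, qq]

theorem e1_pp (t : L) (a : F) : e1 F t (pp a) = t ^ 2 - algebraMap F L a := by simp [pp]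

variable {t : L} (ht : Co1 F t) (a : F)
include ht

theorem Co1.t0 : t ≠ 0 := by simpa using ht.ne X_ne_zero

theorem Co1.p0 : t ^ 2 - algebraMap F L a ≠ 0 := e1_pp t a ▸ ht.ne (pp_monic a).ne_zero

theorem Co1.e1_qq : e1 F t⁻¹ (qq a) = (t ^ 2 - algebraMap F L a) / t ^ 2 := by
  have := ht.t0
  simp only [qq, map_sub, map_one, map_mul, map_pow, e1_X, e1_C]
  field_simp

theorem Co1.mem : (t ^ 2 - algebraMap F L a)⁻¹ ∈ Cn F a t ∧
    t / (t ^ 2 - algebraMap F L a) ∈ Cn F a t ∧ t ^ 2 / (t ^ 2 - algebraMap F L a) ∈ Cn F a t := by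
  have h1 : (t ^ 2 - algebraMap F L a)⁻¹ ∈ Cn F a t := Algebra.subset_adjoin (by simp)
  refine ⟨h1, Algebra.subset_adjoin (by simp), ?_⟩
  have := ht.p0 a
  convert add_mem (one_mem _) (mul_mem (Subalgebra.algebraMap_mem _ a) h1) using 1
  field_simp
  ring

theorem Co1.le1 : Cn F a t ≤ loc (aeval t : F[X] →ₐ[F] L).range (e1 F t (pp a)) ⟨_, rfl⟩ := by
  have := ht.p0 a
  rw [Cn, Algebra.adjoin_le_iff]
  rintro _ (rfl | rfl)
  · exact mem_loc_one _ ⟨1, by rw [e1_pp]; simp [this]⟩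
  · exact mem_loc_one _ ⟨X, by rw [e1_pp]; simp [this]⟩

theorem Co1.le2 : Cn F a t ≤ loc (aeval t⁻¹ : F[X] →ₐ[F] L).range (e1 F t⁻¹ (qq a)) ⟨_, rfl⟩ := by
  have := ht.p0 a
  have := ht.t0
  rw [Cn, Algebra.adjoin_le_iff]
  rintro _ (rfl | rfl)
  · exact mem_loc_one _ ⟨X ^ 2, by rw [ht.e1_qq]; simp; field_simp⟩
  · exact mem_loc_one _ ⟨X, by rw [ht.e1_qq]; simp; field_simp⟩

theorem Co1.ge1 : (aeval t : F[X] →ₐ[F] L).range ≤ loc (Cn F a t) _ (ht.mem a).1 :=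
  range_le1 (mem_loc_one _ (by rw [← div_eq_mul_inv]; exact (ht.mem a).2.1))

theorem Co1.ge2 : (aeval t⁻¹ : F[X] →ₐ[F] L).range ≤ loc (Cn F a t) _ (ht.mem a).2.2 :=
  range_le1 (mem_loc_one _ (by
    have := ht.t0
    convert (ht.mem a).2.1 using 1
    field_simp))

theorem Co1.smooth_Cn : Algebra.Smooth F (Cn F a t) := by
  have hp := ht.p0 a
  have h0 := ht.t0
  have hq : e1 F t⁻¹ (qq a) ≠ 0 := by rw [ht.e1_qq]; positivity
  refine smooth_glue (ht.le1 a) (ht.le2 a) (ht.mem a).1 (ht.mem a).2.2 (inv_ne_zero hp)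
    (by positivity) ?_ ?_ (loc_le _ (e1_pp t a ▸ hp) (ht.ge1 a) ?_) (loc_le _ hq (ht.ge2 a) ?_)
    (neg_mem (Subalgebra.algebraMap_mem _ a)) (one_mem _) ?_ (ht.smooth _ (e1_pp t a ▸ hp))
    (ht.inv.smooth _ hq)
  · exact le_loc _ ⟨pp a, by rw [inv_inv, ← e1_pp]; rfl⟩
  · exact le_loc _ ⟨qq a, by rw [inv_div, ← ht.e1_qq]; rfl⟩
  · rw [e1_pp]; exact le_loc _ (ht.mem a).1
  · rw [ht.e1_qq, inv_div]; exact le_loc _ (ht.mem a).2.2
  · field_simp
    ring

theorem Co1.frac_Cn : IsFractionRing (Cn F a t) L := by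
  refine isFractionRing_of_fracSurj Subtype.val_injective fun x => ?_
  have hp := ht.p0 a
  obtain ⟨f, g, hg, e⟩ := ht.surj x
  obtain ⟨n, hn⟩ := ht.ge1 a ⟨f, rfl⟩
  obtain ⟨m, hm⟩ := ht.ge1 a ⟨g, rfl⟩
  have hu := (ht.mem a).1
  refine ⟨⟨_, mul_mem hn (pow_mem hu m)⟩, ⟨_, mul_mem hm (pow_mem hu n)⟩, ?_, ?_⟩
  · change e1 F t g * _ ^ m * _ ^ n ≠ 0
    positivity
  · change x * (e1 F t g * _ ^ m * _ ^ n) = e1 F t f * _ ^ n * _ ^ m
    rw [← e]; ring

theorem Co1.fin_val [IsFractionRing (Cn F a t) L] (h2 : (2 : F) ≠ 0) (ha : ¬ IsSquare a)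
    {r : F[X]} (hr : Irreducible r) (hm : r.Monic) (hne : r ≠ pp a) :
    ∃ (P : Ideal (Cn F a t)) (_ : P.IsPrime) (_ : IsDiscreteValuationRing (locAt _ L P)),
      IsVal (e1 F t) r (vv L (locAt _ L P)) := by
  have hp := ht.p0 a
  have hd : ∀ n : ℕ, ¬ r ∣ pp a ^ n := fun n h => hne (eq_of_monic_of_associated hm (pp_monic a)
    (hr.associated_of_dvd (pp_irr ha) (hr.prime.dvd_of_dvd_pow h)))
  refine val_transfer h2 ht.inj ht.surj hr.prime (fun x => ?_) (fun f => ?_)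
  · obtain ⟨n, f, hf⟩ := ht.le1 a x.2
    exact ⟨f, pp a ^ n, hd n, by rw [map_pow]; exact hf.symm⟩
  · obtain ⟨n, hn⟩ := ht.ge1 a ⟨f, rfl⟩
    refine ⟨⟨_, hn⟩, ⟨_, pow_mem (ht.mem a).1 n⟩, 1, pp a ^ n, hr.prime.not_dvd_one, hd n, ?_, rfl⟩
    change (_ : L) ^ n * _ = _
    rw [map_pow, e1_pp, ← mul_pow, inv_mul_cancel₀ hp, one_pow, map_one]

theorem Co1.inf_val [IsFractionRing (Cn F a t) L] (h2 : (2 : F) ≠ 0) :
    ∃ (P : Ideal (Cn F a t)) (_ : P.IsPrime) (_ : IsDiscreteValuationRing (locAt _ L P)),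
      IsVal (e1 F t⁻¹) X (vv L (locAt _ L P)) := by
  have hp := ht.p0 a
  have h0 := ht.t0
  have hd : ∀ n : ℕ, ¬ X ∣ qq a ^ n := fun n h => not_X_dvd_qq a (prime_X.dvd_of_dvd_pow h)
  refine val_transfer h2 ht.inv.inj ht.inv.surj prime_X (fun x => ?_) (fun f => ?_)
  · obtain ⟨n, f, hf⟩ := ht.le2 a x.2
    exact ⟨f, qq a ^ n, hd n, by rw [map_pow]; exact hf.symm⟩
  · obtain ⟨n, hn⟩ := ht.ge2 a ⟨f, rfl⟩
    refine ⟨⟨_, hn⟩, ⟨_, pow_mem (ht.mem a).2.2 n⟩, 1, qq a ^ n, prime_X.not_dvd_one, hd n, ?_, rfl⟩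
    change (_ : L) ^ n * _ = _
    rw [map_pow, ht.e1_qq, ← mul_pow, show t ^ 2 / (t ^ 2 - algebraMap F L a) *
      ((t ^ 2 - algebraMap F L a) / t ^ 2) = 1 by field_simp, one_pow, map_one]

end Pool.Agent.P.MP_a9963e_ag
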