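import Mathlib
import Pool.Agent.P.MP_a9963e_ag.K2.Geo

/-! The unramified Milnor question in degree two on an affine conic. -/

namespace Pool.Agent.P.MP_a9963e_ag

open Polynomial IsDedekindDomain

variable {F L : Type} [Field F] [Field L] [Algebra F L]

omit [Algebra F L] in
theorem IsVal.approx {φ : F[X] →+* L} (hs : FracSurj φ) {a : F} (ha : ¬ IsSquare a)
    {V : Valuation L (WithZero (Multiplicative ℤ))} (hV : IsVal φ (pp a) V) {x : L} (hx : V x = 1) :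
    ∃ e0 e1 : F, V (x - φ (gg e0 e1)) < 1 := by
  have hp := pp_irr ha
  obtain ⟨f, g, hg, e⟩ := hs x
  have hx0 : x ≠ 0 := by rintro rfl; simp at hx
  have hg0 : g ≠ 0 := by rintro rfl; simp at hg
  have hf0 : f ≠ 0 := by
    rintro rfl
    exact mul_ne_zero hx0 hg (by simpa using e)
  obtain ⟨n, f', hf', rfl⟩ := exists_pow_factor hp.prime hf0
  obtain ⟨m, g', hg', rfl⟩ := exists_pow_factor hp.prime hg0
  have e2 := congrArg V e
  simp only [map_mul, map_pow, hV.unit _ hf', hV.unit _ hg', mul_one, one_mul, hx, hV.unif,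
    ← WithZero.exp_nsmul, WithZero.exp_inj, nsmul_eq_mul] at e2
  obtain rfl : m = n := by omega
  have hp0 : φ (pp a ^ m) ≠ 0 := left_ne_zero_of_mul (map_mul φ _ _ ▸ hg)
  rw [map_mul, map_mul, mul_left_comm] at e
  replace e := mul_left_cancel₀ hp0 e
  obtain ⟨u, v, huv⟩ := hp.coprime_iff_not_dvd.2 hg'
  obtain ⟨e1, e0, he⟩ := exists_eq_X_add_C_of_natDegree_le_one (p := (f' * v) %ₘ pp a)
    (Nat.le_of_lt_succ ((natDegree_modByMonic_lt _ (pp_monic a) hp.ne_one).trans_eq (pp_deg a)))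
  refine ⟨e0, e1, ?_⟩
  obtain ⟨w, hw⟩ := dvd_modByMonic_sub (f' * v) (pp a)
  have h1 := hV.lt_of_dvd hp.prime (g := f' - gg e0 e1 * g')
    ⟨f' * u - w * g', by rw [gg, ← he]; linear_combination -g' * hw - f' * huv⟩
  rwa [map_sub, map_mul, ← e, ← sub_mul, map_mul, hV.unit _ hg', mul_one] at h1

variable {t : L} (ht : Co1 F t) {a : F} [IsFractionRing (Cn F a t) L]

/-- unramified classes -/
def UnK (a : F) (t : L) [IsFractionRing (Cn F a t) L] (z : KTwo L) : Prop :=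
  ∀ (P : Ideal (Cn F a t)) [P.IsPrime] [IsDiscreteValuationRing (locAt _ L P)],
    TT (vv L (locAt _ L P)) z = 0

/-- unramified forms -/
def UnW (a : F) (t : L) [IsFractionRing (Cn F a t) L] (q : Witt L) : Prop :=
  ∀ (P : Ideal (Cn F a t)) [P.IsPrime] [IsDiscreteValuationRing (locAt _ L P)],
    ResidueZero (locAt _ L P) q

theorem vv_const (P : Ideal (Cn F a t)) [P.IsPrime] [IsDiscreteValuationRing (locAt _ L P)] {c : F}
    (hc : c ≠ 0) : vv L (locAt _ L P) (algebraMap F L c) = 1 := by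
  refine le_antisymm (vv_le_one P (Subalgebra.algebraMap_mem _ c)) ?_
  have := vv_le_one P (Subalgebra.algebraMap_mem _ c⁻¹)
  rwa [map_inv₀, map_inv₀, inv_le_one₀ (by simp [zero_lt_iff, hc])] at this

include ht

theorem Co1.struct (h2 : (2 : F) ≠ 0) (ha : ¬ IsSquare a) {z : KTwo L} (hz : UnK a t z) :
    ∃ w0 w1 : F, w0 ^ 2 - a * w1 ^ 2 = 1 ∧ ∃ y, (∀ V, IsVal (e1 F t) (pp a) V → TT V y = 0) ∧
      z - sy (e1 F t (pp a)) (e1 F t (gg w0 w1)) - 2 • y ∈ KA (e1 F t) (DD F 0) := by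
  obtain ⟨P, _, _, hW⟩ := ht.inf_val a h2
  refine structure_thm ht.inj ht.surj (by simp) (by simp [ht.t0]) ha (fun r hr hm hne => ?_) hW
    (hz P)
  obtain ⟨P, _, _, hV⟩ := ht.fin_val a h2 ha hr hm hne
  exact ⟨_, hV, hz P⟩

theorem Co1.cases (P : Ideal (Cn F a t)) [P.IsPrime] [IsDiscreteValuationRing (locAt _ L P)] :
    (vv L (locAt _ L P) (t ^ 2 - algebraMap F L a) = 1 ∧ vv L (locAt _ L P) t ≤ 1) ∨
      vv L (locAt _ L P) ((t ^ 2 - algebraMap F L a) / t ^ 2 - 1) < 1 := by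
  have hp := ht.p0 a
  have h0 := ht.t0
  obtain ⟨m1, m2, m3⟩ := ht.mem a
  rcases (vv_le_one P m1).eq_or_lt with h | h
  · rw [map_inv₀, inv_eq_one] at h
    refine Or.inl ⟨h, ?_⟩
    have := vv_le_one P m2
    rwa [map_div₀, h, div_one] at this
  · have h1 : Units.mk0 (t ^ 2 / (t ^ 2 - algebraMap F L a)) (by positivity) ∈
        PU (vv L (locAt _ L P)) := by
      rw [mem_PU, Units.val_mk0, show t ^ 2 / (t ^ 2 - algebraMap F L a) - 1 =
        algebraMap F L a * (t ^ 2 - algebraMap F L a)⁻¹ by field_simp; ring, map_mul]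
      exact mul_lt_one_of_nonneg_of_lt_one_right (vv_le_one P (Subalgebra.algebraMap_mem _ a))
        zero_le h
    have h3 := inv_mem h1
    rw [mem_PU] at h3
    exact Or.inr (by simpa using h3)

theorem Co1.rz {p g : Lˣ} (hp : (p : L) = t ^ 2 - algebraMap F L a) {w0 w1 : F}
    (hg : (g : L) = e1 F t (gg w0 w1)) (hw : w1 = 0 ∨ w0 ^ 2 - a * w1 ^ 2 = 1) :
    UnW a t (pf p * pf g) := by
  intro P _ _
  simp only [gg, map_add, map_mul, e1_C, e1_X] at hg
  rcases ht.cases P with ⟨h1, h2⟩ | h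
  · by_cases hw1 : w1 = 0
    · have hw0 : w0 ≠ 0 := by
        rintro rfl
        exact g.ne_zero (by simp [hg, hw1])
      exact rz_units _ (hp ▸ h1) (by rw [hg, hw1]; simpa using vv_const P hw0)
    have hc := fun c : F => vv_le_one P (Subalgebra.algebraMap_mem (Cn F a t) c)
    have h3 : vv L (locAt _ L P) g ≤ 1 := by
      rw [hg]
      exact Valuation.map_add_le _ (by rw [map_mul]; exact mul_le_one' (hc w1) h2) (hc w0)
    rcases h3.eq_or_lt with h4 | h4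
    · exact rz_units _ (hp ▸ h1) h4
    let c : Lˣ := Units.mk0 (algebraMap F L w1) (by simpa using hw1)
    rw [← pf_mul_sq p c]
    refine rz_principal _ ?_ _
    have h5 := congrArg (algebraMap F L) (hw.resolve_left hw1)
    simp only [map_sub, map_mul, map_pow, map_one] at h5
    rw [show ((p * (c * c) : Lˣ) : L) - 1 = g * (g - algebraMap F L (2 * w0)) by
      simp only [Units.val_mul, c, Units.val_mk0, hp, hg, map_mul, map_ofNat]
      linear_combination h5, map_mul]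
    exact mul_lt_one_of_nonneg_of_lt_one_left zero_le h4 (Valuation.map_sub_le _ h3 (hc _))
  · rw [← pf_mul_sq p (Units.mk0 t ht.t0)⁻¹]
    refine rz_principal _ ?_ _
    convert h using 3
    simp [hp, div_eq_mul_inv, sq]

theorem Co1.contain (h2 : (2 : F) ≠ 0) (ha : ¬ IsSquare a) {m : ℕ} (f g : Fin m → Lˣ)
    (hz : UnK a t (∑ i, symb (f i) (g i))) :
    ∃ q ∈ fund L ^ 2, UnW a t q ∧ q - ∑ i, pf (f i) * pf (g i) ∈ fund L ^ 3 := by
  obtain ⟨T, hT, hT2⟩ := exists_Pf (L := L)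
  let U : AddSubgroup (WQ L) :=
    { carrier := {x | ∃ q ∈ fund L ^ 2, UnW a t q ∧ wq L q = x}
      zero_mem' := ⟨0, zero_mem _, fun P _ _ _ _ _ _ d _ => map_zero d, map_zero _⟩
      add_mem' := by
        rintro _ _ ⟨q, h1, h2, rfl⟩ ⟨q', h1', h2', rfl⟩
        exact ⟨q + q', add_mem h1 h1', fun P _ _ => (h2 P).add _ (h2' P), map_add _ _ _⟩
      neg_mem' := by
        rintro _ ⟨q, h1, h2, rfl⟩
        exact ⟨-q, neg_mem h1, fun P _ _ => (h2 P).neg _, map_neg _ _⟩ }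
  obtain ⟨w0, w1, hw, y, -, h⟩ := ht.struct h2 ha hz
  have hg0 : gg w0 w1 ≠ 0 := fun h0 => by
    obtain ⟨rfl, rfl⟩ := pp_dvd (a := a) (h0 ▸ dvd_zero _)
    simp at hw
  have h1 := KA_zero (U.comap T) (fun c d hc hd => by
    let c' : Lˣ := Units.mk0 _ (ht.ne (C_ne_zero.2 hc))
    let d' : Lˣ := Units.mk0 _ (ht.ne (C_ne_zero.2 hd))
    refine ⟨pf c' * pf d', pf_mem2 _ _, fun P _ _ => rz_units _ ?_ ?_, ?_⟩
    · simpa [c'] using vv_const P hc
    · simpa [d'] using vv_const P hd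
    · rw [← hT, ← sy_units]; rfl) h
  let p : Lˣ := Units.mk0 _ (ht.ne (pp_monic a).ne_zero)
  let G : Lˣ := Units.mk0 _ (ht.ne hg0)
  have h3 : T (symb p G) ∈ U :=
    ⟨_, pf_mem2 p G, ht.rz (e1_pp t a) rfl (Or.inr hw), (hT _ _).symm⟩
  rw [AddSubgroup.mem_comap, map_sub, map_sub, hT2, sub_zero,
    show sy (e1 F t (pp a)) (e1 F t (gg w0 w1)) = symb p G from sy_units p G] at h1
  obtain ⟨q, q1, q2, q3⟩ := add_mem h1 h3
  refine ⟨q, q1, q2, wq_eq_zero.1 ?_⟩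
  rw [map_sub, q3, sub_add_cancel, map_sum, map_sum]
  simp only [hT, sub_self]

theorem Co1.tame_p (h2 : (2 : F) ≠ 0) (ha : ¬ IsSquare a) {z : KTwo L} (hz : UnK a t z)
    {V : Valuation L (WithZero (Multiplicative ℤ))} (hV : IsVal (e1 F t) (pp a) V) :
    ∃ (w0 w1 : F) (G : Lˣ), w0 ^ 2 - a * w1 ^ 2 = 1 ∧ (G : L) = e1 F t (gg w0 w1) ∧ V G = 1 ∧
      TT V z = -cl V G := by
  obtain ⟨w0, w1, hw, y, hy, h⟩ := ht.struct h2 ha hz
  have hnd : ¬ pp a ∣ gg w0 w1 := fun h0 => by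
    obtain ⟨rfl, rfl⟩ := pp_dvd h0
    simp at hw
  have hg0 : gg w0 w1 ≠ 0 := fun h0 => hnd (h0 ▸ dvd_zero _)
  let p : Lˣ := Units.mk0 _ (ht.ne (pp_monic a).ne_zero)
  let G : Lˣ := Units.mk0 _ (ht.ne hg0)
  refine ⟨w0, w1, G, hw, rfl, hV.unit _ hnd, ?_⟩
  have h1 := hV.kill (pp_irr ha) (pp_monic a)
    (fun h => absurd (pp_deg a ▸ h : 2 ≤ 0) (by norm_num)) h
  rw [map_sub, map_sub, map_nsmul, hy V hV, smul_zero, sub_zero, sub_eq_zero,
    show sy (e1 F t (pp a)) (e1 F t (gg w0 w1)) = symb p G from sy_units p G,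
    TT_left V p G (hV.unit _ hnd), od_of_exp V (f := p) hV.unif] at h1
  simpa using h1

theorem Co1.unK_neg_one {p : Lˣ} (hp : (p : L) = t ^ 2 - algebraMap F L a) :
    UnK a t (symb (-1) p) := by
  intro P _ _
  rw [TT_right _ _ _ (by simp)]
  rcases ht.cases P with ⟨h1, -⟩ | h
  · rw [(od_eq_zero_iff _ p).2 (hp ▸ h1), zero_smul]
  · let T : Lˣ := Units.mk0 t ht.t0
    have h1 : p / (T * T) ∈ PU (vv L (locAt _ L P)) := by
      rw [mem_PU]
      convert h using 3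
      simp [hp, T, sq]
    have h3 := (od_eq_zero_iff _ _).2 (val_of_PU _ h1)
    rw [← div_mul_cancel p (T * T), od_mul, h3, od_mul, zero_add, ← mul_two, mul_smul, cl_two,
      smul_zero]

theorem Co1.not_inj (h2 : (2 : F) ≠ 0) (hi : IsSquare (-1 : F)) (ha : ¬ IsSquare a) {p : Lˣ}
    (hp : (p : L) = e1 F t (pp a)) {z : KTwo L} (hz : UnK a t z) : symb (-1) p ≠ 2 • z := by
  intro h
  obtain ⟨V, hV⟩ := exists_isVal h2 ht.inj ht.surj (pp_irr ha).prime
  obtain ⟨w0, w1, G, hw, hG, -, h1⟩ := ht.tame_p h2 ha hz hV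
  have h3 := congrArg (TT V) h
  rw [map_nsmul, h1, TT_right _ _ _ (by simp), od_of_exp V (f := p) (hp ▸ hV.unif)] at h3
  have h4 : cl V (-1 * (G * G)) = 0 := by
    rw [cl_mul, cl_mul]
    linear_combination (norm := module) h3
  rw [cl_eq_zero] at h4
  have h5 : pp a ∣ -(gg w0 w1 ^ 2 + 1) := hV.dvd (by
    convert h4 using 2
    simp [hG, sq]
    ring)
  have h6 : pp a ∣ gg (w0 ^ 2 + a * w1 ^ 2 + 1) (2 * w0 * w1) := by
    convert dvd_sub h5.neg_right (dvd_mul_right (pp a) (C w1 ^ 2)) using 1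
    simp only [gg, pp, map_add, map_mul, map_pow, map_one, map_ofNat]
    ring
  obtain ⟨h7, -⟩ := pp_dvd h6
  have h8 : w0 = 0 := by
    have : 2 * w0 ^ 2 = 0 := by linear_combination hw + h7
    simpa [h2] using this
  obtain ⟨i, hi⟩ := hi
  have h9 : w1 ≠ 0 := by
    rintro rfl
    simp [h8] at hw
  refine ha ⟨i / w1, ?_⟩
  rw [h8] at hw
  field_simp
  linear_combination hi - hw

theorem Co1.not_surj (h2 : (2 : F) ≠ 0) (hi : IsSquare (-1 : F)) (ha : ¬ IsSquare a) {p B : Lˣ}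
    (hp : (p : L) = e1 F t (pp a)) {b : F} (hB : (B : L) = algebraMap F L b) {m : ℕ}
    (f g : Fin m → Lˣ) (hz : UnK a t (∑ i, symb (f i) (g i)))
    (h : pf p * pf B - ∑ i, pf (f i) * pf (g i) ∈ fund L ^ 3) : ∃ x y, x ^ 2 - a * y ^ 2 = b := by
  obtain ⟨V, hV⟩ := exists_isVal h2 ht.inj ht.surj (pp_irr ha).prime
  have hpr := (pp_irr ha).prime
  obtain ⟨w0, w1, G, hw, hG, hG1, h1⟩ := ht.tame_p h2 ha hz hV
  obtain ⟨D, hD, hD3⟩ := exists_disc V (two_ne_zero_of_hom (IsUnit.mk0 _ h2) (algebraMap F L))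
    (by simpa using hi.map (algebraMap F L))
  have hb0 : b ≠ 0 := by
    rintro rfl
    exact B.ne_zero (by rw [hB, map_zero])
  have hB1 : V B = 1 := by rw [hB, ← e1_C t]; exact hV.const hpr hb0
  have h3 := hD3 _ h
  simp only [map_sub, map_sum, hD] at h3
  rw [← map_sum, ← map_sum, h1, TT_left V p B hB1, od_of_exp V (f := p) (hp ▸ hV.unif),
    ← map_sub] at h3
  obtain ⟨x, hx⟩ := (QuotientAddGroup.eq_zero_iff _).1 h3
  obtain ⟨s, rfl⟩ : ∃ s, cl V s = x := QuotientGroup.mk_surjective (s := PU V) x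
  have h4 : cl V (G * (s⁻¹ * s⁻¹) / B) = 0 := by
    rw [cl_div, cl_mul, cl_mul, cl_inv]
    change (2 : ℕ) • cl V s = _ at hx
    linear_combination (norm := module) -hx
  rw [cl_eq_zero] at h4
  have h5 := val_of_PU V h4
  generalize s⁻¹ = r at h4 h5
  simp only [Units.val_div_eq_div_val, Units.val_mul, map_div₀, map_mul, hG1, hB1, one_mul,
    div_one] at h4 h5
  have h6 : V r = 1 := by
    rw [← sq] at h5
    exact (pow_eq_one_iff_of_nonneg zero_le two_ne_zero).1 h5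
  obtain ⟨e0, e1', he⟩ := hV.approx ht.surj ha h6
  rw [div_sub_one B.ne_zero, map_div₀, hB1, div_one] at h4
  have h7 : pp a ∣ gg w0 w1 * gg e0 e1' ^ 2 - C b := hV.dvd (by
    rw [map_sub, map_mul, map_pow, ← hG, e1_C, ← hB,
      show (G : L) * e1 F t (gg e0 e1') ^ 2 - B = (G * (r * r) - B) -
        G * ((r - e1 F t (gg e0 e1')) * (r + e1 F t (gg e0 e1'))) by ring]
    refine Valuation.map_sub_lt _ h4 ?_
    rw [map_mul, map_mul, hG1, one_mul]
    exact mul_lt_one_of_nonneg_of_lt_one_left zero_le he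
      (Valuation.map_add_le _ h6.le (hV.le_one hpr _)))
  have h8 : pp a ∣ gg (w0 * (e0 ^ 2 + a * e1' ^ 2) + a * w1 * (2 * e0 * e1') - b)
      (w0 * (2 * e0 * e1') + w1 * (e0 ^ 2 + a * e1' ^ 2)) := by
    convert dvd_sub h7 (dvd_mul_right (pp a) (C w1 * (2 * C e0 * C e1') + C e1' ^ 2 * gg w0 w1))
      using 1
    simp only [gg, pp, map_add, map_sub, map_mul, map_pow, map_ofNat]
    ring
  obtain ⟨h9, h10⟩ := pp_dvd h8
  have h11 : (e0 ^ 2 - a * e1' ^ 2) ^ 2 = b ^ 2 := by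
    have e : b = w0 * (e0 ^ 2 + a * e1' ^ 2) + a * w1 * (2 * e0 * e1') := by
      linear_combination -h9
    rw [e]
    linear_combination -(e0 ^ 2 - a * e1' ^ 2) ^ 2 * hw -
      a * (w0 * (2 * e0 * e1') + w1 * (e0 ^ 2 + a * e1' ^ 2)) * h10
  rcases sq_eq_sq_iff_eq_or_eq_neg.1 h11 with h | h
  · exact ⟨e0, e1', h⟩
  · obtain ⟨i, hi⟩ := hi
    exact ⟨i * e0, i * e1', by linear_combination -h - (e0 ^ 2 - a * e1' ^ 2) * hi⟩

end Pool.Agent.P.MP_a9963e_ag
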